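import Pool.Agent.H54.TT.Lau

/-!
# [H98 RH Defs] RING HOM and DICTIONARY: definitions

`Hom v w S f`: the ring homomorphism `f : A → L` of a subring `A ⊇ S` of `F` to the field `L` with discrete valuation `w` has
`w (f x) = v x` for all nonzero elements `x` of the finite set `S`.

`LT H`: lattice terms in the symbols `h : H`, with multiplication with powers of the uniformiser, sums and intersections.
`ev`: the value of a term, a module over the valuation ring.
-/

set_option autoImplicit false

namespace Pool.Agent.H98.RH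

open Pool.Agent.H54.TT

section

variable {F : Type} [Field F] {v : F → ℤ} (hv : IsDV v)

/-- the valuation ring -/
def Ov : Subring F where
  carrier := {x | Ge v 0 x}
  mul_mem' := by
    intro x y hx hy
    have := ge_mul hv hx hy
    rwa [add_zero] at this
  one_mem' := fun _ => by rw [hv.one]
  add_mem' := fun hx hy => ge_add hv hx hy
  zero_mem' := ge_zero hv 0
  neg_mem' := fun hx => ge_neg hv hx

theorem mem_Ov {x : F} : x ∈ Ov hv ↔ Ge v 0 x := Iff.rfl

/-- the standard lattice -/
def L0 (n : ℕ) : Submodule (Ov hv) (Fin n → F) where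
  carrier := {x | ∀ i, Ge v 0 (x i)}
  add_mem' := fun hx hy i => ge_add hv (hx i) (hy i)
  zero_mem' := fun _ => ge_zero hv 0
  smul_mem' := by
    intro c x hx i
    have := ge_mul hv c.2 (hx i)
    rwa [add_zero] at this

theorem mem_L0 {n : ℕ} {x : Fin n → F} : x ∈ L0 hv n ↔ ∀ i, Ge v 0 (x i) := Iff.rfl

/-- the lattice `g O^n` -/
noncomputable def LM {n : ℕ} (g : GL (Fin n) F) : Submodule (Ov hv) (Fin n → F) :=
  (L0 hv n).map ((Matrix.mulVecLin g.val).restrictScalars (Ov hv))

/-- `v (det g) = 0` and the entries are integral: `g` preserves the standard lattice -/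
def Int {n : ℕ} (v : F → ℤ) (g : GL (Fin n) F) : Prop := (∀ i j, Ge v 0 (g.val i j)) ∧ v g.val.det = 0

end

/-- lattice terms -/
inductive LT (H : Type) : Type
  | sym : H → LT H
  | sc : ℤ → LT H → LT H
  | sum : LT H → LT H → LT H
  | inf : LT H → LT H → LT H

/-- the value of a term -/
noncomputable def ev {F : Type} [Field F] {v : F → ℤ} (hv : IsDV v) (π : Fˣ) {n : ℕ} {H : Type}
    (ρ : H → GL (Fin n) F) : LT H → Submodule (Ov hv) (Fin n → F)
  | LT.sym h => LM hv (ρ h)
  | LT.sc k t => (ev hv π ρ t).map (((LinearMap.lsmul F (Fin n → F)) ((π ^ k : Fˣ) : F)).restrictScalars (Ov hv))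
  | LT.sum t t' => ev hv π ρ t ⊔ ev hv π ρ t'
  | LT.inf t t' => ev hv π ρ t ⊓ ev hv π ρ t'

/-- the ring homomorphism preserves the valuations of the nonzero elements of the finite set `S` -/
structure Pres {F : Type} [Field F] (v : F → ℤ) {L : Type} [Field L] (w : L → ℤ) (S : Finset F)
    (A : Subring F) (f : A →+* L) : Prop where
  sub : ∀ x ∈ S, x ∈ A
  ne : ∀ x : A, (x : F) ∈ S → (x : F) ≠ 0 → f x ≠ 0
  val : ∀ x : A, (x : F) ∈ S → (x : F) ≠ 0 → w (f x) = v x

end Pool.Agent.H98.RH
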