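import Pool.Agent.H98.RH.Gd
import Mathlib.FieldTheory.Separable
import Mathlib.FieldTheory.IntermediateField.Adjoin.Algebra
import Mathlib.RingTheory.AlgebraicIndependent.Basic
import Mathlib.RingTheory.Polynomial.Basic
import Mathlib.FieldTheory.Minpoly.Field

/-!
# [H98 RH GenA] From a separating transcendence basis and a primitive element to polynomials with integer coefficients
-/

set_option autoImplicit false

namespace Pool.Agent.H98.RH

open Polynomial IntermediateField

/-- evaluation of the coefficients -/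
noncomputable def e1 {σ : Type} {R : Type} [CommRing R] (Z : σ → R) : MvPolynomial σ ℤ →+* R :=
  MvPolynomial.eval₂Hom (Int.castRingHom R) Z

theorem e1_map {σ : Type} {R R' : Type} [CommRing R] [CommRing R'] (φ : R →+* R') (Z : σ → R) (h : MvPolynomial σ ℤ) :
    φ (e1 Z h) = e1 (fun i => φ (Z i)) h := by
  have h1 : φ.comp (e1 Z) = e1 (fun i => φ (Z i)) := by
    refine MvPolynomial.ringHom_ext' ?_ ?_
    · exact RingHom.ext_int _ _
    · intro i
      simp [e1]
  exact RingHom.congr_fun h1 h

theorem e1_X {σ : Type} {R : Type} [CommRing R] (Z : σ → R) (i : σ) : e1 Z (MvPolynomial.X i) = Z i := by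
  simp [e1]

theorem e2_eq {σ : Type} {R : Type} [CommRing R] (Z : σ → R) (Θ : R) (h : Polynomial (MvPolynomial σ ℤ)) :
    e2 Z Θ h = (h.map (e1 Z)).eval Θ := by
  rw [Polynomial.eval_map]
  rfl

theorem e2_C {σ : Type} {R : Type} [CommRing R] (Z : σ → R) (Θ : R) (h : MvPolynomial σ ℤ) :
    e2 Z Θ (C h) = e1 Z h := by
  rw [e2_eq, map_C, eval_C]

/-- the coefficients of a polynomial which vanishes at an independent family -/
theorem coeff_van {k₀ K : Type} [Field k₀] [Field K] [Algebra k₀ K] {σ : Type} {z : σ → K} (hz : AlgebraicIndependent k₀ z)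
    {a : MvPolynomial σ ℤ} (h : e1 z a = 0) (m : σ →₀ ℕ) : ((a.coeff m : ℤ) : K) = 0 := by
  have h1 : MvPolynomial.aeval z (MvPolynomial.map (Int.castRingHom k₀) a) = e1 z a := by
    have h2 : ((MvPolynomial.aeval z : MvPolynomial σ k₀ →ₐ[k₀] K) : MvPolynomial σ k₀ →+* K).comp
        (MvPolynomial.map (Int.castRingHom k₀)) = e1 z := by
      refine MvPolynomial.ringHom_ext' ?_ ?_
      · exact RingHom.ext_int _ _
      · intro i
        simp [e1]
    exact RingHom.congr_fun h2 a
  have h3 : MvPolynomial.map (Int.castRingHom k₀) a = 0 := by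
    apply hz
    rw [h1, h, map_zero]
  have h4 := congrArg (MvPolynomial.coeff m) h3
  rw [MvPolynomial.coeff_map, MvPolynomial.coeff_zero] at h4
  have h5 := congrArg (algebraMap k₀ K) h4
  rw [map_zero, eq_intCast, map_intCast] at h5
  exact h5

theorem e1_zero {σ : Type} {R : Type} [CommRing R] (Z : σ → R) {a : MvPolynomial σ ℤ}
    (h : ∀ m, ((a.coeff m : ℤ) : R) = 0) : e1 Z a = 0 := by
  have h1 : MvPolynomial.map (Int.castRingHom R) a = 0 := by
    ext m
    rw [MvPolynomial.coeff_map, MvPolynomial.coeff_zero, eq_intCast]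
    exact h m
  have h2 : e1 Z a = MvPolynomial.eval Z (MvPolynomial.map (Int.castRingHom R) a) := by
    rw [MvPolynomial.eval_map]
    rfl
  rw [h2, h1, map_zero]

section

variable {k₀ K : Type} [Field k₀] [Field K] [Algebra k₀ K] (hk₀ : ∀ c : k₀, ∃ a b : ℤ, (b : k₀) ≠ 0 ∧ c * b = a)
  {σ : Type} (z : σ → K)

/-- quotients of polynomials in `z` -/
def Quo (x : K) : Prop := ∃ c a : MvPolynomial σ ℤ, e1 z c ≠ 0 ∧ x * e1 z c = e1 z a

theorem quo_add {x y : K} (hx : Quo z x) (hy : Quo z y) : Quo z (x + y) := by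
  obtain ⟨c, a, h1, h2⟩ := hx
  obtain ⟨c', a', h3, h4⟩ := hy
  refine ⟨c * c', a * c' + a' * c, ?_, ?_⟩
  · rw [map_mul]
    exact mul_ne_zero h1 h3
  · rw [map_mul, map_add, map_mul, map_mul, ← h2, ← h4]
    ring

theorem quo_mul {x y : K} (hx : Quo z x) (hy : Quo z y) : Quo z (x * y) := by
  obtain ⟨c, a, h1, h2⟩ := hx
  obtain ⟨c', a', h3, h4⟩ := hy
  refine ⟨c * c', a * a', ?_, ?_⟩
  · rw [map_mul]
    exact mul_ne_zero h1 h3
  · rw [map_mul, map_mul, ← h2, ← h4]
    ring

theorem quo_inv {x : K} (hx : Quo z x) : Quo z x⁻¹ := by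
  by_cases h0 : x = 0
  · rw [h0, inv_zero, ← h0]
    exact hx
  obtain ⟨c, a, h1, h2⟩ := hx
  refine ⟨a, c, ?_, ?_⟩
  · rw [← h2]
    exact mul_ne_zero h0 h1
  · rw [← h2, ← mul_assoc, inv_mul_cancel₀ h0, one_mul]

include hk₀ in
theorem quo_const (c : k₀) : Quo z (algebraMap k₀ K c) := by
  obtain ⟨a, b, hb, h⟩ := hk₀ c
  refine ⟨(b : MvPolynomial σ ℤ), (a : MvPolynomial σ ℤ), ?_, ?_⟩
  · rw [map_intCast, ← map_intCast (algebraMap k₀ K)]
    intro h0
    exact hb ((map_eq_zero _).1 h0)
  · rw [map_intCast, map_intCast, ← map_intCast (algebraMap k₀ K), ← map_intCast (algebraMap k₀ K), ← map_mul, h]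

include hk₀ in
/-- all elements of the field generated by `z` are quotients -/
theorem quo_of_mem {x : K} (hx : x ∈ adjoin k₀ (Set.range z)) : Quo z x := by
  let D : IntermediateField k₀ K :=
    { carrier := {x | Quo z x}
      mul_mem' := fun hx hy => quo_mul z hx hy
      one_mem' := by
        have := quo_const hk₀ z (1 : k₀)
        rwa [map_one] at this
      add_mem' := fun hx hy => quo_add z hx hy
      zero_mem' := by
        have := quo_const hk₀ z (0 : k₀)
        rwa [map_zero] at this
      algebraMap_mem' := fun c => quo_const hk₀ z c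
      inv_mem' := fun x hx => quo_inv z hx }
  have h1 : adjoin k₀ (Set.range z) ≤ D := by
    rw [adjoin_le_iff]
    rintro _ ⟨i, rfl⟩
    exact ⟨1, MvPolynomial.X i, by rw [map_one]; exact one_ne_zero, by rw [map_one, mul_one, e1_X]⟩
  exact h1 hx

/-- a common denominator -/
theorem common {x : ℕ → K} (hx : ∀ j, Quo z (x j)) (n : ℕ) :
    ∃ (c : MvPolynomial σ ℤ) (a : ℕ → MvPolynomial σ ℤ), e1 z c ≠ 0 ∧ ∀ j < n, x j * e1 z c = e1 z (a j) := by
  induction n with
  | zero => exact ⟨1, fun _ => 0, by rw [map_one]; exact one_ne_zero, fun j hj => absurd hj (by omega)⟩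
  | succ n ih =>
    obtain ⟨c, a, hc, ha⟩ := ih
    obtain ⟨c', a', hc', ha'⟩ := hx n
    refine ⟨c * c', fun j => if j = n then a' * c else a j * c', ?_, ?_⟩
    · rw [map_mul]
      exact mul_ne_zero hc hc'
    · intro j hj
      by_cases h : j = n
      · subst h
        simp only [if_true]
        rw [map_mul, map_mul, ← ha']
        ring
      · simp only [h, if_false]
        rw [map_mul, map_mul, ← ha j (by omega)]
        ring

end

/-- the polynomial with the coefficients `a j`, `j < n` -/
noncomputable def pol {A : Type} [CommRing A] (a : ℕ → A) (n : ℕ) : A[X] := ∑ j ∈ Finset.range n, C (a j) * X ^ j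

theorem coeff_pol {A : Type} [CommRing A] (a : ℕ → A) (n j : ℕ) : (pol a n).coeff j = if j < n then a j else 0 := by
  rw [pol, finsetSum_coeff]
  simp only [coeff_C_mul_X_pow]
  split_ifs with h
  · rw [Finset.sum_eq_single j]
    · rw [if_pos rfl]
    · intro b _ hb
      rw [if_neg (fun h => hb h.symm)]
    · intro h1
      exact absurd (Finset.mem_range.2 h) h1
  · refine Finset.sum_eq_zero fun i hi => ?_
    rw [if_neg]
    intro h1
    subst h1
    exact h (Finset.mem_range.1 hi)

theorem map_pol {A B : Type} [CommRing A] [CommRing B] (φ : A →+* B) (a : ℕ → A) (n : ℕ) :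
    (pol a n).map φ = pol (fun j => φ (a j)) n := by
  ext j
  rw [coeff_map, coeff_pol, coeff_pol]
  split_ifs
  · rfl
  · rw [map_zero]

theorem pol_coeff {A : Type} [CommRing A] (p : A[X]) {n : ℕ} (h : p.natDegree < n) : pol (fun j => p.coeff j) n = p := by
  ext j
  rw [coeff_pol]
  split_ifs with h1
  · rfl
  · rw [coeff_eq_zero_of_natDegree_lt (by omega)]

/-- GEN, the algebra -/
theorem gen_alg {k₀ K : Type} [Field k₀] [Field K] [Algebra k₀ K]
    (hk₀ : ∀ c : k₀, ∃ a b : ℤ, (b : k₀) ≠ 0 ∧ c * b = a) {σ : Type} (z : σ → K) (hz : AlgebraicIndependent k₀ z) (θ : K)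
    (hs : IsSeparable (adjoin k₀ (Set.range z)) θ) (ht : adjoin (adjoin k₀ (Set.range z)) {θ} = ⊤) :
    ∃ (g : Polynomial (MvPolynomial σ ℤ)) (b : MvPolynomial σ ℤ),
      e2 z θ g = 0 ∧ e2 z θ (derivative g) ≠ 0 ∧ e2 z θ (C b) ≠ 0 ∧
      (∀ h, e2 z θ h = 0 → ∀ (R : Type) [CommRing R], (∀ n : ℤ, (n : K) = 0 → (n : R) = 0) →
        ∀ (Z : σ → R) (Θ : R), e2 Z Θ g = 0 → ∃ e : ℕ, (e2 Z Θ (C b)) ^ e * e2 Z Θ h = 0) ∧
      ∀ x : K, ∃ c a, e2 z θ c ≠ 0 ∧ x * e2 z θ c = e2 z θ a := by
  obtain ⟨m, hm⟩ : ∃ m : (adjoin k₀ (Set.range z))[X], m = minpoly (adjoin k₀ (Set.range z)) θ := ⟨_, rfl⟩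
  have hint : IsIntegral (adjoin k₀ (Set.range z)) θ := hs.isIntegral
  have hmon : m.Monic := by rw [hm]; exact minpoly.monic hint
  have hsep : m.Separable := by rw [hm]; exact hs
  have hroot : aeval θ m = 0 := by rw [hm]; exact minpoly.aeval _ _
  obtain ⟨c, a, hc, ha⟩ := common z (x := fun j => ((m.coeff j : adjoin k₀ (Set.range z)) : K))
    (fun j => quo_of_mem hk₀ z (m.coeff j).2) (m.natDegree + 1)
  obtain ⟨g, hg⟩ : ∃ g : Polynomial (MvPolynomial σ ℤ), g = pol a (m.natDegree + 1) := ⟨_, rfl⟩
  have hgm : g.map (e1 z) = C (e1 z c) * m.map (algebraMap (adjoin k₀ (Set.range z)) K) := by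
    ext j
    rw [coeff_map, coeff_C_mul, coeff_map, hg, coeff_pol]
    split_ifs with h
    · rw [← ha j h, mul_comm]
      rfl
    · rw [coeff_eq_zero_of_natDegree_lt (show m.natDegree < j by omega), map_zero, map_zero, mul_zero]
  have hb : e1 z (a m.natDegree) = e1 z c := by
    rw [← ha m.natDegree (by omega)]
    have h1 : m.coeff m.natDegree = 1 := hmon.coeff_natDegree
    rw [h1]
    simp
  obtain ⟨zM, hzM⟩ : ∃ zM : σ → adjoin k₀ (Set.range z), ∀ i, ((zM i : adjoin k₀ (Set.range z)) : K) = z i :=
    ⟨fun i => ⟨z i, subset_adjoin _ _ ⟨i, rfl⟩⟩, fun _ => rfl⟩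
  have hzM' : ∀ P, algebraMap (adjoin k₀ (Set.range z)) K (e1 zM P) = e1 z P := by
    intro P
    rw [e1_map, show (fun i => algebraMap (adjoin k₀ (Set.range z)) K (zM i)) = z from funext fun i => hzM i]
  refine ⟨g, a m.natDegree, ?_, ?_, ?_, ?_, ?_⟩
  · rw [e2_eq, hgm, eval_mul, eval_map_algebraMap, hroot, mul_zero]
  · rw [e2_eq, ← derivative_map, hgm, derivative_C_mul, eval_mul, eval_C, derivative_map, eval_map_algebraMap]
    exact mul_ne_zero hc (hsep.aeval_derivative_ne_zero hroot)
  · rw [e2_C, hb]
    exact hc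
  · intro h hh R _ hR Z Θ hZ
    have key : ∀ n : ℕ, ∀ h : Polynomial (MvPolynomial σ ℤ), e2 z θ h = 0 → h.natDegree < n →
        ∃ e : ℕ, (e2 Z Θ (C (a m.natDegree))) ^ e * e2 Z Θ h = 0 := by
      intro n
      induction n with
      | zero => intro h _ h2; omega
      | succ n ih =>
        intro h h1 h2
        by_cases hd : h.natDegree < m.natDegree
        · refine ⟨0, ?_⟩
          have h3 : m ∣ h.map (e1 zM) := by
            rw [hm]
            apply minpoly.dvd
            rw [← eval_map_algebraMap, Polynomial.map_map]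
            have h4 : (algebraMap (adjoin k₀ (Set.range z)) K).comp (e1 zM) = e1 z := RingHom.ext hzM'
            rw [h4, ← e2_eq]
            exact h1
          have h4 : h.map (e1 zM) = 0 := by
            apply eq_zero_of_dvd_of_natDegree_lt h3
            exact lt_of_le_of_lt natDegree_map_le hd
          rw [pow_zero, one_mul, e2_eq]
          have h5 : h.map (e1 Z) = 0 := by
            ext j
            rw [coeff_map, coeff_zero]
            apply e1_zero
            intro μ
            apply hR
            apply coeff_van hz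
            have h6 := congrArg (fun p => p.coeff j) h4
            simp only [coeff_map, Polynomial.coeff_zero] at h6
            rw [← hzM', h6, map_zero]
          rw [h5, eval_zero]
        · rw [not_lt] at hd
          obtain ⟨h', hh'⟩ : ∃ h', h' = C (a m.natDegree) * h - C (h.coeff h.natDegree) * X ^ (h.natDegree - m.natDegree) * g :=
            ⟨_, rfl⟩
          have h3 : e2 z θ h' = 0 := by
            rw [hh', map_sub, map_mul, h1, mul_zero, map_mul _ _ g, e2_eq z θ g, hgm, eval_mul, eval_map_algebraMap, hroot,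
              mul_zero, mul_zero, sub_zero]
          have h4 : e2 Z Θ h' = e2 Z Θ (C (a m.natDegree)) * e2 Z Θ h := by
            rw [hh', map_sub, map_mul, map_mul _ _ g, hZ, mul_zero, sub_zero]
          by_cases h0 : h' = 0
          · refine ⟨1, ?_⟩
            rw [pow_one, ← h4, h0, map_zero]
          · have h5 : h'.natDegree < n := by
              have hgd : g.natDegree ≤ m.natDegree := by
                rw [natDegree_le_iff_coeff_eq_zero]
                intro j hj
                rw [hg, coeff_pol, if_neg (by omega)]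
              have h6 : h'.natDegree ≤ h.natDegree := by
                rw [hh']
                refine (natDegree_sub_le _ _).trans (max_le (natDegree_C_mul_le _ _) ?_)
                refine natDegree_mul_le.trans ?_
                have := natDegree_C_mul_X_pow_le (h.coeff h.natDegree) (h.natDegree - m.natDegree)
                omega
              have h7 : h'.coeff h.natDegree = 0 := by
                rw [hh', coeff_sub, coeff_C_mul, mul_assoc, coeff_C_mul]
                have h9 : ∀ t, h.natDegree = m.natDegree + t → (X ^ t * g).coeff h.natDegree = a m.natDegree := by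
                  intro t h8
                  rw [h8, coeff_X_pow_mul, hg, coeff_pol, if_pos (by omega)]
                rw [h9 _ (by omega)]
                ring
              rcases lt_or_eq_of_le h6 with h10 | h10
              · omega
              · exfalso
                apply h0
                rw [← h10] at h7
                exact leadingCoeff_eq_zero.1 h7
            obtain ⟨e, he⟩ := ih h' h3 h5
            refine ⟨e + 1, ?_⟩
            rw [pow_succ, mul_assoc, ← h4]
            exact he
    exact key (h.natDegree + 1) h hh (by omega)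
  · intro x
    have h1 : Algebra.adjoin (adjoin k₀ (Set.range z)) {θ} = ⊤ := by
      rw [← adjoin_simple_toSubalgebra_of_isAlgebraic hint.isAlgebraic, ht, top_toSubalgebra]
    have h2 : x ∈ Algebra.adjoin (adjoin k₀ (Set.range z)) {θ} := by rw [h1]; trivial
    rw [Algebra.adjoin_singleton_eq_range_aeval] at h2
    obtain ⟨Q, hQ⟩ := h2
    obtain ⟨c', a', hc', ha'⟩ := common z (x := fun j => ((Q.coeff j : adjoin k₀ (Set.range z)) : K))
      (fun j => quo_of_mem hk₀ z (Q.coeff j).2) (Q.natDegree + 1)
    refine ⟨C c', pol a' (Q.natDegree + 1), ?_, ?_⟩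
    · rw [e2_C]
      exact hc'
    · rw [e2_C, e2_eq]
      have h3 : (pol a' (Q.natDegree + 1)).map (e1 z) = C (e1 z c') * Q.map (algebraMap (adjoin k₀ (Set.range z)) K) := by
        ext j
        rw [coeff_map, coeff_C_mul, coeff_map, coeff_pol]
        split_ifs with h
        · rw [← ha' j h, mul_comm]
          rfl
        · rw [coeff_eq_zero_of_natDegree_lt (show Q.natDegree < j by omega), map_zero, map_zero, mul_zero]
      rw [h3, eval_mul, eval_C, eval_map_algebraMap, mul_comm]
      congr 1
      exact hQ.symm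

end Pool.Agent.H98.RH
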