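import Pool.Agent.H98.RH.GenF
import Pool.Agent.H98.RH.GenA
import Mathlib.FieldTheory.Perfect
import Mathlib.FieldTheory.IntermediateField.Adjoin.Algebra
import Mathlib.Algebra.Field.Subfield.Basic
import Mathlib.Algebra.Algebra.ZMod

/-!
# [H98 RH Gen] GEN: generators of finitely generated fields
-/

set_option autoImplicit false

namespace Pool.Agent.H98.RH

open Pool.Agent.H54.TT Polynomial

theorem bot_quo {F : Type} [Field F] (c : (⊥ : Subfield F)) :
    ∃ a b : ℤ, (b : (⊥ : Subfield F)) ≠ 0 ∧ c * b = a := by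
  let D : Subfield F :=
    { carrier := {x | ∃ a b : ℤ, (b : F) ≠ 0 ∧ x * b = a}
      mul_mem' := by
        rintro x y ⟨a, b, h1, h2⟩ ⟨a', b', h3, h4⟩
        refine ⟨a * a', b * b', ?_, ?_⟩
        · push_cast
          exact mul_ne_zero h1 h3
        · push_cast
          rw [← h2, ← h4]
          ring
      one_mem' := ⟨1, 1, by simp, by simp⟩
      add_mem' := by
        rintro x y ⟨a, b, h1, h2⟩ ⟨a', b', h3, h4⟩
        refine ⟨a * b' + a' * b, b * b', ?_, ?_⟩
        · push_cast
          exact mul_ne_zero h1 h3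
        · push_cast
          rw [← h2, ← h4]
          ring
      zero_mem' := ⟨0, 1, by simp, by simp⟩
      neg_mem' := by
        rintro x ⟨a, b, h1, h2⟩
        exact ⟨-a, b, h1, by push_cast; rw [← h2]; ring⟩
      inv_mem' := by
        rintro x ⟨a, b, h1, h2⟩
        by_cases h0 : x = 0
        · subst h0
          exact ⟨0, 1, by simp, by simp⟩
        · refine ⟨b, a, ?_, ?_⟩
          · rw [← h2]
            exact mul_ne_zero h0 h1
          · rw [← h2, ← mul_assoc, inv_mul_cancel₀ h0, one_mul] }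
  obtain ⟨a, b, h1, h2⟩ := (bot_le : (⊥ : Subfield F) ≤ D) c.2
  refine ⟨a, b, ?_, ?_⟩
  · intro h
    apply h1
    have := congrArg (fun x : (⊥ : Subfield F) => (x : F)) h
    simpa using this
  · apply Subtype.ext
    simpa using h2

theorem bot_perfect (F : Type) [Field F] : PerfectField (⊥ : Subfield F) := by
  rcases CharP.exists' F with h | ⟨p, hp, hF⟩
  · have : CharZero (⊥ : Subfield F) := by
      refine ⟨fun a b hab => ?_⟩
      have := congrArg (fun x : (⊥ : Subfield F) => (x : F)) hab
      simpa using this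
    exact PerfectField.ofCharZero
  · let _ : Algebra (ZMod p) F := ZMod.algebra F p
    have h1 : Finite (⊥ : Subfield F) := by
      rw [Subfield.bot_eq_of_zMod_algebra p]
      exact Finite.of_surjective (algebraMap (ZMod p) F).rangeRestrictField
        (algebraMap (ZMod p) F).rangeRestrictField_bijective.2
    exact PerfectField.ofFinite

/-- GEN -/
theorem exists_gen {F : Type} [Field F] {v : F → ℤ} (hv : IsDV v) (S : Finset F) :
    ∃ (σ : Type) (_ : Finite σ) (z : σ → F) (θ : F) (g : Polynomial (MvPolynomial σ ℤ)) (b : MvPolynomial σ ℤ),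
      GD v S σ z θ g b := by
  have hperf := bot_perfect F
  obtain ⟨K, hK⟩ : ∃ K : IntermediateField (⊥ : Subfield F) F, K = IntermediateField.adjoin (⊥ : Subfield F) (S : Set F) :=
    ⟨_, rfl⟩
  have hess : Algebra.EssFiniteType (⊥ : Subfield F) K := by
    rw [IntermediateField.essFiniteType_iff, hK]
    exact ⟨S, rfl⟩
  obtain ⟨σ, hσ, z, θ, h1, h2, h3, h4, h5⟩ := gen_field (⊥ : Subfield F) K (fun x => Ge v 0 (x : F)) (by
    intro x
    by_cases h0 : (x : F) = 0
    · left
      rw [h0]
      exact ge_zero hv 0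
    · rcases le_total 0 (v x) with h | h
      · left
        exact fun _ => h
      · right
        intro _
        show 0 ≤ v ((x : F)⁻¹)
        rw [hv.inv h0]
        omega)
  obtain ⟨g, b, h6, h7, h8, h9, h10⟩ := gen_alg bot_quo z h3 θ h4 h5
  have hco : ∀ P, (e2 z θ P : F) = e2 (fun i => (z i : F)) (θ : F) P := fun P => e2_map (algebraMap K F) z θ P
  have hco0 : ∀ P, e2 (fun i => (z i : F)) (θ : F) P = 0 ↔ e2 z θ P = 0 := by
    intro P
    rw [← hco]
    exact map_eq_zero (algebraMap K F)
  refine ⟨σ, hσ, fun i => z i, θ, g, b, ⟨h1, h2, ?_, ?_, ?_, ?_, ?_⟩⟩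
  · rw [hco0]
    exact h6
  · rw [Ne, hco0]
    exact h7
  · rw [Ne, hco0]
    exact h8
  · intro h hh R _ hR Z Θ hZ
    refine h9 h ((hco0 h).1 hh) R ?_ Z Θ hZ
    intro n hn
    apply hR
    have := congrArg (algebraMap K F) hn
    rwa [map_intCast, map_zero] at this
  · intro x hx
    have hxK : x ∈ K := by
      rw [hK]
      exact IntermediateField.subset_adjoin _ _ hx
    obtain ⟨c, a, h11, h12⟩ := h10 ⟨x, hxK⟩
    refine ⟨c, a, ?_, ?_⟩
    · rw [Ne, hco0]
      exact h11
    · rw [← hco, ← hco, ← h12]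
      rfl

end Pool.Agent.H98.RH
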