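import Pool.Agent.H98.RH.Hom
import Pool.Agent.H98.RH.Gen

/-!
# [H98 RH Main] RING HOM

`F ⊇ k` fields, `v` a discrete valuation of `F`, trivial on `k`, with residue field `k`. For every finite set `S` in `F` there
are a finite field `E` and a ring homomorphism of the subring generated by `S` to `E((t))` which preserves the valuations of the
nonzero elements of `S`.
-/

set_option autoImplicit false

namespace Pool.Agent.H98.RH

open Pool.Agent.H54.TT

/-- RING HOM -/
theorem exists_hom {k F : Type} [Field k] [Field F] [Algebra k F] {v : F → ℤ} (hv : IsDV v)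
    (hk : ∀ c : k, c ≠ 0 → v (algebraMap k F c) = 0)
    (hres : ∀ x : F, Ge v 0 x → ∃ c : k, Ge v 1 (x - algebraMap k F c)) (S : Finset F) :
    ∃ (E : Type) (_ : Field E) (_ : Finite E) (f : Subring.closure (S : Set F) →+* LaurentSeries E),
      Pres v HahnSeries.order S (Subring.closure (S : Set F)) f := by
  obtain ⟨σ, hσ, z, θ, g, b, H⟩ := exists_gen hv S
  exact hom_of_gd hv hk hres S H

end Pool.Agent.H98.RH
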