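import Pool.Agent.H98.RH.Defs
import Pool.Agent.H98.RH.Main
import Pool.Agent.H25.DI.Dic

/-!
# [H98 RH Stm] RING HOM and DICTIONARY: the two main statements, complete (`exists_hom` is in `Main`, `dict` in `H25/DI/Dic`)

`exists_hom`: `F ⊇ k` fields, `v` a discrete valuation of `F`, trivial on `k`, with residue field `k`. For every finite set `S`
in `F` there are a finite field `E` and a ring homomorphism of the subring generated by `S` to `E((t))` which preserves the
valuations of the nonzero elements of `S`.

`dict`: for a finite set `T` of lattice terms there is a finite set `S` such that for every ring homomorphism `f` which preserves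
the valuations of the elements of `S`: the entries of the matrices are in the domain and all inclusions between the values of
the terms of `T` are the same over `v` and over `w`; moreover every term has a basis which works on both sides.
-/

set_option autoImplicit false

namespace Pool.Agent.H98.RH

open Pool.Agent.H54.TT

/-- DICTIONARY -/
theorem dict {F : Type} [Field F] {v : F → ℤ} (hv : IsDV v) (π : Fˣ) (hπ : v π = 1) {n : ℕ} {H : Type} [Finite H]
    (ρ : H → GL (Fin n) F) (T : Set (LT H)) (hT : T.Finite) :
    ∃ (S : Finset F) (B : LT H → GL (Fin n) F), (∀ t ∈ T, ev hv π ρ t = LM hv (B t)) ∧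
      ∀ (A : Subring F) (L : Type) [Field L] (w : L → ℤ) (hw : IsDV w) (f : A →+* L), Pres v w S A f →
        (∀ h i j, (ρ h).val i j ∈ A) ∧ (∀ t ∈ T, ∀ i j, (B t).val i j ∈ A) ∧ (π : F) ∈ A ∧
        ∀ (π' : Lˣ) (ρ' : H → GL (Fin n) L) (B' : LT H → GL (Fin n) L), (∀ x : A, (x : F) = π → (π' : L) = f x) →
          (∀ h i j, ∀ x : A, (x : F) = (ρ h).val i j → (ρ' h).val i j = f x) →
          (∀ t ∈ T, ∀ i j, ∀ x : A, (x : F) = (B t).val i j → (B' t).val i j = f x) →
          (∀ t ∈ T, ev hw π' ρ' t = LM hw (B' t)) ∧
          ∀ t ∈ T, ∀ t' ∈ T, (ev hw π' ρ' t ≤ ev hw π' ρ' t' ↔ ev hv π ρ t ≤ ev hv π ρ t') :=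
  Pool.Agent.H25.DI.dict hv π hπ ρ T hT

end Pool.Agent.H98.RH
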