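import Pool.Agent.H98.RH.Defs
import Mathlib.RingTheory.PowerSeries.Trunc
import Mathlib.RingTheory.PowerSeries.Order
import Mathlib.Algebra.Polynomial.AlgebraMap

/-!
# [H98 RH Exp] The Taylor series of the elements of the valuation ring at a rational place
-/

set_option autoImplicit false
set_option linter.unusedSectionVars false

namespace Pool.Agent.H98.RH

open Pool.Agent.H54.TT Polynomial

section

variable {k F : Type} [Field k] [Field F] [Algebra k F] {v : F → ℤ} (hv : IsDV v)

/-- partial sums -/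
noncomputable def psm (p : F) (φ : PowerSeries k) (N : ℕ) : F := aeval p (PowerSeries.trunc N φ)

theorem psm_zero (p : F) (φ : PowerSeries k) : psm p φ 0 = 0 := by
  rw [psm, PowerSeries.trunc_zero', map_zero]

theorem psm_succ (p : F) (φ : PowerSeries k) (N : ℕ) :
    psm p φ (N + 1) = psm p φ N + algebraMap k F (PowerSeries.coeff N φ) * p ^ N := by
  rw [psm, psm, PowerSeries.trunc_succ, map_add, aeval_monomial]

/-- `x` has the Taylor series `φ` -/
def Rel (v : F → ℤ) (p : F) (x : F) (φ : PowerSeries k) : Prop := ∀ N : ℕ, Ge v N (x - psm p φ N)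

theorem psm_add (p : F) (φ ψ : PowerSeries k) (N : ℕ) : psm p (φ + ψ) N = psm p φ N + psm p ψ N := by
  rw [psm, psm, psm, map_add, map_add]

theorem psm_sub (p : F) (φ ψ : PowerSeries k) (N : ℕ) : psm p (φ - ψ) N = psm p φ N - psm p ψ N := by
  rw [psm, psm, psm, PowerSeries.trunc_sub, map_sub]

include hv

theorem ge_sub {n : ℤ} {x y : F} (hx : Ge v n x) (hy : Ge v n y) : Ge v n (x - y) := by
  rw [sub_eq_add_neg]
  exact ge_add hv hx (ge_neg hv hy)

theorem ge_pow {p : F} (hp : v p = 1) (n : ℕ) : Ge v n (p ^ n) := by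
  induction n with
  | zero =>
    intro _
    rw [pow_zero, hv.one]
    norm_num
  | succ n ih =>
    rw [pow_succ]
    have h1 : Ge v 1 p := fun _ => by rw [hp]
    have h2 := ge_mul hv ih h1
    push_cast
    exact h2

theorem v_pow {p : F} (hp0 : p ≠ 0) (hp : v p = 1) (n : ℕ) : v (p ^ n) = n := by
  induction n with
  | zero => rw [pow_zero, hv.one]; norm_num
  | succ n ih =>
    rw [pow_succ, hv.mul _ _ (pow_ne_zero n hp0) hp0, ih, hp]
    push_cast
    ring

variable (hk : ∀ c : k, c ≠ 0 → v (algebraMap k F c) = 0)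
include hk

theorem ge_const (c : k) : Ge v 0 (algebraMap k F c) := by
  intro h
  rw [hk c (fun h0 => h (by rw [h0, map_zero]))]

theorem ge_aeval {p : F} (hp : v p = 1) (P : k[X]) : Ge v 0 (aeval p P) := by
  induction P using Polynomial.induction_on' with
  | add P Q h1 h2 => rw [map_add]; exact ge_add hv h1 h2
  | monomial n a =>
    rw [aeval_monomial]
    have h1 := ge_mul hv (ge_const hv hk a) (ge_pow hv hp n)
    exact h1.mono' hv (by omega)

theorem rel_add {p x y : F} {φ ψ : PowerSeries k} (h1 : Rel v p x φ) (h2 : Rel v p y ψ) : Rel v p (x + y) (φ + ψ) := by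
  intro N
  have h3 : x + y - psm p (φ + ψ) N = (x - psm p φ N) + (y - psm p ψ N) := by rw [psm_add]; ring
  rw [h3]
  exact ge_add hv (h1 N) (h2 N)

theorem rel_sub {p x y : F} {φ ψ : PowerSeries k} (h1 : Rel v p x φ) (h2 : Rel v p y ψ) : Rel v p (x - y) (φ - ψ) := by
  intro N
  have h3 : x - y - psm p (φ - ψ) N = (x - psm p φ N) - (y - psm p ψ N) := by rw [psm_sub]; ring
  rw [h3]
  exact ge_sub hv (h1 N) (h2 N)

theorem rel_mul {p x y : F} (hp : v p = 1) (hx : Ge v 0 x) {φ ψ : PowerSeries k} (h1 : Rel v p x φ) (h2 : Rel v p y ψ) :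
    Rel v p (x * y) (φ * ψ) := by
  intro N
  obtain ⟨R, hR⟩ : (X : k[X]) ^ N ∣ PowerSeries.trunc N φ * PowerSeries.trunc N ψ - PowerSeries.trunc N (φ * ψ) := by
    rw [Polynomial.X_pow_dvd_iff]
    intro d hd
    rw [coeff_sub, sub_eq_zero, ← PowerSeries.trunc_trunc_mul_trunc, PowerSeries.coeff_trunc, if_pos hd,
      ← Polynomial.coe_mul, Polynomial.coeff_coe]
  have h3 : x * y - psm p (φ * ψ) N = x * (y - psm p ψ N) + (x - psm p φ N) * psm p ψ N + p ^ N * aeval p R := by
    have h4 : aeval p (PowerSeries.trunc N φ) * aeval p (PowerSeries.trunc N ψ) - aeval p (PowerSeries.trunc N (φ * ψ)) =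
        p ^ N * aeval p R := by
      rw [← map_mul (aeval p), ← map_sub, hR, map_mul, map_pow, aeval_X]
    rw [← h4]
    simp only [psm]
    ring
  rw [h3]
  have h5 := ge_mul hv hx (h2 N)
  have h6 := ge_mul hv (h1 N) (ge_aeval hv hk hp (PowerSeries.trunc N ψ))
  have h7 := ge_mul hv (ge_pow hv hp N) (ge_aeval hv hk hp R)
  rw [zero_add] at h5
  rw [add_zero] at h6 h7
  exact ge_add hv (ge_add hv h5 h6) h7

/-- the order of the Taylor series -/
theorem rel_ord {p x : F} (hp0 : p ≠ 0) (hp : v p = 1) {φ : PowerSeries k} (h : Rel v p x φ) (n : ℕ)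
    (h1 : PowerSeries.coeff n φ ≠ 0) (h2 : ∀ i < n, PowerSeries.coeff i φ = 0) : x ≠ 0 ∧ v x = n := by
  have h3 : psm p φ n = 0 := by
    have : ∀ m ≤ n, psm p φ m = 0 := by
      intro m
      induction m with
      | zero => intro _; exact psm_zero p φ
      | succ m ih =>
        intro hm
        rw [psm_succ, ih (by omega), h2 m (by omega), map_zero, zero_mul, add_zero]
    exact this n le_rfl
  have h4 := h n
  rw [h3, sub_zero] at h4
  have h5 := h (n + 1)
  rw [psm_succ, h3, zero_add] at h5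
  have h6 : algebraMap k F (PowerSeries.coeff n φ) ≠ 0 := by
    intro h0
    exact h1 ((map_eq_zero _).1 h0)
  have h7 : algebraMap k F (PowerSeries.coeff n φ) * p ^ n ≠ 0 := mul_ne_zero h6 (pow_ne_zero n hp0)
  have h8 : v (algebraMap k F (PowerSeries.coeff n φ) * p ^ n) = n := by
    rw [hv.mul _ _ h6 (pow_ne_zero n hp0), hk _ h1, v_pow hv hp0 hp, zero_add]
  have h9 : ¬ Ge v (n + 1 : ℕ) x := by
    intro h10
    have h11 := ge_sub hv h10 h5
    rw [sub_sub_cancel] at h11
    have h12 := h11 h7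
    rw [h8] at h12
    push_cast at h12
    omega
  have h13 : x ≠ 0 := by
    intro h0
    apply h9
    rw [h0]
    exact ge_zero hv _
  refine ⟨h13, le_antisymm ?_ (h4 h13)⟩
  by_contra hlt
  apply h9
  intro _
  push_cast
  omega

theorem rel_unique {p x : F} (hp0 : p ≠ 0) (hp : v p = 1) {φ ψ : PowerSeries k} (h1 : Rel v p x φ) (h2 : Rel v p x ψ) :
    φ = ψ := by
  by_contra hne
  have h3 := rel_sub hv hk h1 h2
  rw [sub_self] at h3
  have h4 : φ - ψ ≠ 0 := sub_ne_zero.2 hne
  exact (rel_ord hv hk hp0 hp h3 _ (PowerSeries.coeff_order h4)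
    fun i hi => PowerSeries.coeff_of_lt_order_toNat i hi).1 rfl

theorem rel_exists {p : F} (hp0 : p ≠ 0) (hp : v p = 1)
    (hres : ∀ x : F, Ge v 0 x → ∃ c : k, Ge v 1 (x - algebraMap k F c)) (x : F) (hx : Ge v 0 x) :
    ∃ φ : PowerSeries k, Rel v p x φ := by
  have h1 : ∀ y : Ov hv, ∃ c : k, Ge v 1 ((y : F) - algebraMap k F c) := fun y => hres y y.2
  choose c hc using h1
  have h2 : ∀ y : Ov hv, Ge v 0 (((y : F) - algebraMap k F (c y)) * p⁻¹) := by
    intro y
    have h3 : Ge v (-1) p⁻¹ := fun _ => by rw [hv.inv hp0, hp]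
    have h4 := ge_mul hv (hc y) h3
    rwa [add_neg_cancel] at h4
  let nx : Ov hv → Ov hv := fun y => ⟨_, h2 y⟩
  let xs : ℕ → Ov hv := fun n => nx^[n] ⟨x, hx⟩
  refine ⟨PowerSeries.mk fun n => c (xs n), ?_⟩
  have h3 : ∀ N, x - psm p (PowerSeries.mk fun n => c (xs n)) N = p ^ N * (xs N : F) := by
    intro N
    induction N with
    | zero =>
      rw [psm_zero, sub_zero, pow_zero, one_mul]
      rfl
    | succ N ih =>
      have h4 : xs (N + 1) = nx (xs N) := Function.iterate_succ_apply' nx N _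
      rw [psm_succ, ← sub_sub, ih, h4, PowerSeries.coeff_mk]
      show _ = p ^ (N + 1) * (((xs N : F) - algebraMap k F (c (xs N))) * p⁻¹)
      rw [pow_succ]
      field_simp
  intro N
  rw [h3]
  have h5 := ge_mul hv (ge_pow hv hp N) (xs N).2
  rwa [add_zero] at h5

omit hk in
/-- EXP -/
theorem exists_exp (hk : ∀ c : k, c ≠ 0 → v (algebraMap k F c) = 0)
    (hres : ∀ x : F, Ge v 0 x → ∃ c : k, Ge v 1 (x - algebraMap k F c)) :
    ∃ T : Ov hv →+* PowerSeries k, ∀ x : Ov hv, (x : F) ≠ 0 → T x ≠ 0 ∧ (((T x).order.toNat : ℕ) : ℤ) = v x := by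
  obtain ⟨p, hp0, hp⟩ := hv.unif
  have h1 : ∀ x : Ov hv, ∃ φ : PowerSeries k, Rel v p (x : F) φ := fun x => rel_exists hv hk hp0 hp hres x x.2
  choose T hT using h1
  have hone : Rel v p (1 : F) (1 : PowerSeries k) := by
    intro N
    cases N with
    | zero =>
      rw [psm_zero, sub_zero]
      intro _
      rw [hv.one]
      norm_num
    | succ N =>
      rw [psm, PowerSeries.trunc_one, map_one, sub_self]
      exact ge_zero hv _
  refine ⟨{ toFun := T, map_one' := ?_, map_mul' := ?_, map_zero' := ?_, map_add' := ?_ }, ?_⟩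
  · exact rel_unique hv hk hp0 hp (hT 1) hone
  · intro x y
    exact rel_unique hv hk hp0 hp (hT (x * y)) (rel_mul hv hk hp x.2 (hT x) (hT y))
  · have h2 := rel_sub hv hk hone hone
    rw [sub_self, sub_self] at h2
    exact rel_unique hv hk hp0 hp (hT 0) h2
  · intro x y
    exact rel_unique hv hk hp0 hp (hT (x + y)) (rel_add hv hk (hT x) (hT y))
  · intro x hx
    have h2 : T x ≠ 0 := by
      intro h0
      have h3 := hT x ((v x).toNat + 1)
      rw [h0] at h3
      have h4 : psm p (0 : PowerSeries k) ((v x).toNat + 1) = 0 := by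
        rw [psm, map_zero, map_zero]
      rw [h4, sub_zero] at h3
      have h5 := h3 hx
      push_cast at h5
      have h6 := Int.self_le_toNat (v x)
      omega
    refine ⟨h2, ?_⟩
    exact ((rel_ord hv hk hp0 hp (hT x) _ (PowerSeries.coeff_order h2)
      fun i hi => PowerSeries.coeff_of_lt_order_toNat i hi).2).symm

end

end Pool.Agent.H98.RH
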