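import Mathlib.RingTheory.Jacobson.Ring
import Mathlib.RingTheory.FiniteType
import Mathlib.FieldTheory.Finiteness
import Mathlib.Algebra.CharP.Algebra
import Mathlib.RingTheory.Localization.FractionRing
import Mathlib.Algebra.Algebra.ZMod
import Mathlib.Data.Nat.Prime.Infinite
import Mathlib.RingTheory.Int.Basic
import Mathlib.RingTheory.PrincipalIdealDomain

/-!
# [H98 RH Fin] Finitely generated subrings of fields have homomorphisms to finite fields
-/

set_option autoImplicit false

namespace Pool.Agent.H98.RH

theorem jac_int : IsJacobsonRing ℤ := by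
  rw [isJacobsonRing_iff_prime_eq]
  intro P hP
  by_cases h0 : P = ⊥
  · subst h0
    refine le_antisymm ?_ Ideal.le_jacobson
    intro x hx
    by_contra hne
    have hx0 : x ≠ 0 := fun h => hne (by rw [h]; exact Ideal.zero_mem _)
    obtain ⟨p, hpx, hp⟩ := Nat.exists_infinite_primes (x.natAbs + 1)
    have hM : (Ideal.span {(p : ℤ)}).IsMaximal := by
      have h1 : Prime (p : ℤ) := Nat.prime_iff_prime_int.1 hp
      exact PrincipalIdealRing.isMaximal_of_irreducible h1.irreducible
    have h2 : x ∈ Ideal.span {(p : ℤ)} := by
      rw [Ideal.jacobson, Ideal.mem_sInf] at hx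
      exact hx ⟨bot_le, hM⟩
    rw [Ideal.mem_span_singleton] at h2
    have h3 : p ∣ x.natAbs := Int.natCast_dvd.1 h2
    have h4 := Nat.le_of_dvd (Int.natAbs_pos.2 hx0) h3
    omega
  · have h1 : P.IsMaximal := IsPrime.to_maximal_ideal h0
    exact Ideal.jacobson_eq_self_of_isMaximal

/-- a field which is finitely generated as a ring is finite -/
theorem finite_of_ft (K : Type) [Field K] [Algebra.FiniteType ℤ K] : Finite K := by
  have := jac_int
  have h1 : Module.Finite ℤ K := finite_of_finite_type_of_isJacobsonRing ℤ K
  by_cases hc : ∃ p : ℕ, p.Prime ∧ CharP K p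
  · obtain ⟨p, hp, hK⟩ := hc
    have hp' : Fact p.Prime := ⟨hp⟩
    let _ : Algebra (ZMod p) K := ZMod.algebra K p
    have h2 : Module.Finite (ZMod p) K := by
      obtain ⟨s, hs⟩ := h1
      refine ⟨⟨s, ?_⟩⟩
      rw [eq_top_iff]
      intro x _
      have hx : x ∈ Submodule.span ℤ (s : Set K) := by rw [hs]; trivial
      induction hx using Submodule.span_induction with
      | mem x h => exact Submodule.subset_span h
      | zero => exact Submodule.zero_mem _
      | add x y _ _ h1 h2 => exact Submodule.add_mem _ (h1 trivial) (h2 trivial)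
      | smul n x _ h =>
        rw [zsmul_eq_mul]
        have h3 : ((n : K)) * x = ((n : ZMod p)) • x := by
          rw [Algebra.smul_def]
          congr 1
          simp
        rw [h3]
        exact Submodule.smul_mem _ _ (h trivial)
    exact Module.finite_of_finite (ZMod p)
  · exfalso
    have h0 : CharZero K := by
      rcases CharP.exists' K with h | ⟨p, hp, hK⟩
      · exact h
      · exact absurd ⟨p, hp.out, hK⟩ hc
    have hint : Algebra.IsIntegral ℤ K := Algebra.IsIntegral.of_finite ℤ K
    have hinj : Function.Injective (algebraMap ℤ K) := by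
      rw [algebraMap_int_eq]
      exact Int.cast_injective
    have hf : IsField ℤ := isField_of_isIntegral_of_isField hinj (Field.toIsField K)
    obtain ⟨y, hy⟩ := hf.mul_inv_cancel (show (2 : ℤ) ≠ 0 by norm_num)
    omega

private theorem ft_of_surj {R : Type} [CommRing R] (h : Algebra.FiniteType ℤ R) {K : Type} [Field K] (f : R →+* K)
    (hf : Function.Surjective f) : Finite K := by
  have h5 : Algebra.FiniteType ℤ K := h.of_surjective f.toIntAlgHom hf
  exact finite_of_ft K

/-- homomorphisms of finitely generated subrings of fields to finite fields -/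
theorem exists_fin {k : Type} [Field k] (S : Finset k) :
    ∃ (E : Type) (_ : Field E) (_ : Finite E), Nonempty (Subring.closure (S : Set k) →+* E) := by
  obtain ⟨M, hM⟩ := Ideal.exists_maximal (Subring.closure (S : Set k))
  have h1 : Algebra.FiniteType ℤ (Subring.closure (S : Set k)) := by
    have h2 : (Algebra.adjoin ℤ (S : Set k)).FG := ⟨S, rfl⟩
    have h3 : Algebra.FiniteType ℤ (Algebra.adjoin ℤ (S : Set k)) := (Subalgebra.fg_iff_finiteType _).1 h2
    have h4 : (Algebra.adjoin ℤ (S : Set k)).toSubring = Subring.closure (S : Set k) := by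
      rw [Algebra.adjoin_int]
      rfl
    let e : Algebra.adjoin ℤ (S : Set k) →ₐ[ℤ] Subring.closure (S : Set k) :=
      { toFun := fun x => ⟨x.1, h4 ▸ x.2⟩
        map_one' := rfl
        map_mul' := fun _ _ => rfl
        map_zero' := rfl
        map_add' := fun _ _ => rfl
        commutes' := fun _ => rfl }
    have he : Function.Surjective e := fun y => ⟨⟨y.1, (SetLike.ext_iff.1 h4 y.1).2 y.2⟩, rfl⟩
    exact h3.of_surjective e he
  let fld : Field (Subring.closure (S : Set k) ⧸ M) := Ideal.Quotient.field M
  exact ⟨Subring.closure (S : Set k) ⧸ M, fld, ft_of_surj h1 (Ideal.Quotient.mk M) Ideal.Quotient.mk_surjective,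
    ⟨Ideal.Quotient.mk M⟩⟩

end Pool.Agent.H98.RH
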