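import Pool.Agent.H54.TT.Lau
import Mathlib.Algebra.MvPolynomial.Eval
import Mathlib.Algebra.Polynomial.Derivative

/-!
# [H98 RH Gd] Generators of a finitely generated subfield: the data
-/

set_option autoImplicit false

namespace Pool.Agent.H98.RH

open Pool.Agent.H54.TT Polynomial

/-- evaluation of `h ∈ ℤ[z][T]` at `(Z, Θ)` -/
noncomputable def e2 {σ : Type} {R : Type} [CommRing R] (Z : σ → R) (Θ : R) :
    Polynomial (MvPolynomial σ ℤ) →+* R :=
  Polynomial.eval₂RingHom (MvPolynomial.eval₂Hom (Int.castRingHom R) Z) Θ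

theorem e2_map {σ : Type} {R R' : Type} [CommRing R] [CommRing R'] (φ : R →+* R') (Z : σ → R) (Θ : R)
    (h : Polynomial (MvPolynomial σ ℤ)) : φ (e2 Z Θ h) = e2 (fun i => φ (Z i)) (φ Θ) h := by
  have h1 : φ.comp (e2 Z Θ) = e2 (fun i => φ (Z i)) (φ Θ) := by
    refine Polynomial.ringHom_ext' ?_ ?_
    · refine MvPolynomial.ringHom_ext' ?_ ?_
      · exact RingHom.ext_int _ _
      · intro i
        simp [e2]
    · simp [e2]
  exact RingHom.congr_fun h1 h

/-- `z`, `θ` are integral, `g(z, θ) = 0`, `g'(z, θ) ≠ 0`, every element of `S` is a quotient of polynomials in `z`, `θ`;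
a polynomial which vanishes at `(z, θ)` vanishes, up to powers of `b`, at all zeros of `g` over all rings in which all integers
vanish which vanish in `F` -/
structure GD {F : Type} [Field F] (v : F → ℤ) (S : Finset F) (σ : Type) (z : σ → F) (θ : F)
    (g : Polynomial (MvPolynomial σ ℤ)) (b : MvPolynomial σ ℤ) : Prop where
  zi : ∀ i, Ge v 0 (z i)
  ti : Ge v 0 θ
  root : e2 z θ g = 0
  der : e2 z θ (Polynomial.derivative g) ≠ 0
  lead : e2 z θ (Polynomial.C b) ≠ 0
  ker : ∀ h, e2 z θ h = 0 → ∀ (R : Type) [CommRing R], (∀ n : ℤ, (n : F) = 0 → (n : R) = 0) →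
    ∀ (Z : σ → R) (Θ : R), e2 Z Θ g = 0 → ∃ e : ℕ, (e2 Z Θ (Polynomial.C b)) ^ e * e2 Z Θ h = 0
  frac : ∀ x ∈ S, ∃ c a, e2 z θ c ≠ 0 ∧ x * e2 z θ c = e2 z θ a

end Pool.Agent.H98.RH
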