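import Mathlib.FieldTheory.SeparablyGenerated
import Mathlib.FieldTheory.PrimitiveElement
import Mathlib.FieldTheory.Perfect
import Mathlib.FieldTheory.IntermediateField.Adjoin.Algebra
import Mathlib.RingTheory.AlgebraicIndependent.TranscendenceBasis

/-!
# [H98 RH GenF] Generators of a finitely generated field over a perfect field: a separating transcendence basis and a
primitive element, all of them good, if of `x`, `x⁻¹` always one is good
-/

set_option autoImplicit false

namespace Pool.Agent.H98.RH

open IntermediateField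

theorem gen_field (k₀ K : Type) [Field k₀] [Field K] [Algebra k₀ K] [PerfectField k₀] [Algebra.EssFiniteType k₀ K]
    (good : K → Prop) (hg : ∀ x, good x ∨ good x⁻¹) :
    ∃ (σ : Type) (_ : Finite σ) (z : σ → K) (θ : K), (∀ i, good (z i)) ∧ good θ ∧ AlgebraicIndependent k₀ z ∧
      IsSeparable (adjoin k₀ (Set.range z)) θ ∧ adjoin (adjoin k₀ (Set.range z)) {θ} = ⊤ := by
  classical
  obtain ⟨s, hs, hsep⟩ := exists_isTranscendenceBasis_and_isSeparable_of_perfectField k₀ K
  obtain ⟨ε, hε⟩ : ∃ ε : K → K, ∀ x, good (ε x) ∧ (ε x = x ∨ ε x = x⁻¹) := by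
    refine ⟨fun x => if good x then x else x⁻¹, fun x => ?_⟩
    by_cases h : good x
    · simp [h]
    · have := (hg x).resolve_left h
      simp [h, this]
  obtain ⟨z, hz⟩ : ∃ z : s → K, z = fun i : s => ε (i : K) := ⟨_, rfl⟩
  have hM : adjoin k₀ (Set.range z) = adjoin k₀ (s : Set K) := by
    apply le_antisymm
    · rw [adjoin_le_iff]
      rintro _ ⟨i, rfl⟩
      have hi : (i : K) ∈ adjoin k₀ (s : Set K) := subset_adjoin _ _ i.2
      rw [hz]
      rcases (hε i).2 with h | h
      · show ε i ∈ adjoin k₀ (s : Set K)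
        rw [h]
        exact hi
      · show ε i ∈ adjoin k₀ (s : Set K)
        rw [h]
        exact inv_mem hi
    · rw [adjoin_le_iff]
      intro x hx
      have hi : z ⟨x, hx⟩ ∈ adjoin k₀ (Set.range z) := subset_adjoin _ _ ⟨_, rfl⟩
      rw [hz] at hi
      rcases (hε x).2 with h | h
      · have h1 : ε x ∈ adjoin k₀ (Set.range z) := by rw [hz]; exact hi
        rwa [h] at h1
      · have h1 : ε x ∈ adjoin k₀ (Set.range z) := by rw [hz]; exact hi
        rw [h] at h1
        have h2 := inv_mem h1
        rwa [inv_inv] at h2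
  have hsep' : Algebra.IsSeparable (adjoin k₀ (Set.range z)) K := by
    rw [hM]
    exact hsep
  have halg : Algebra.IsAlgebraic (adjoin k₀ (Set.range z)) K := inferInstance
  have halg' : Algebra.IsAlgebraic (Algebra.adjoin k₀ (Set.range z)) K := by
    open scoped IntermediateField.algebraAdjoinAdjoin in
    exact (IsFractionRing.comap_isAlgebraic_iff (A := Algebra.adjoin k₀ (Set.range z))
      (K := adjoin k₀ (Set.range z)) (C := K)).2 halg
  have hind : IsTranscendenceBasis k₀ z := by
    refine Algebra.IsAlgebraic.isTranscendenceBasis_of_le_trdeg_of_finite k₀ z ?_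
    exact hs.cardinalMk_eq_trdeg.le
  have hess : Algebra.EssFiniteType (adjoin k₀ (Set.range z)) K := Algebra.EssFiniteType.of_comp k₀ _ K
  have hfin : Module.Finite (adjoin k₀ (Set.range z)) K := Algebra.finite_of_essFiniteType_of_isAlgebraic
  obtain ⟨α, hα⟩ := Field.exists_primitive_element (adjoin k₀ (Set.range z)) K
  refine ⟨s, inferInstance, z, ε α, ?_, (hε α).1, hind.1, Algebra.IsSeparable.isSeparable _ _, ?_⟩
  · intro i
    rw [hz]
    exact (hε i).1
  · rw [eq_top_iff, ← hα, adjoin_le_iff, Set.singleton_subset_iff]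
    have h1 : ε α ∈ adjoin (adjoin k₀ (Set.range z)) {ε α} := subset_adjoin _ _ rfl
    rcases (hε α).2 with h | h
    · rw [h] at h1 ⊢
      exact h1
    · have h2 := inv_mem h1
      have h3 : (ε α)⁻¹ = α := by rw [h, inv_inv]
      rw [h3] at h2
      exact h2

end Pool.Agent.H98.RH
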