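import Mathlib.RingTheory.Henselian
import Mathlib.Algebra.Polynomial.Identities
import Mathlib.Algebra.Polynomial.Taylor

/-!
# [H98 RH New] Hensel's lemma in the form of Newton
-/

set_option autoImplicit false

namespace Pool.Agent.H98.RH

open Polynomial

/-- `q + U + k(U) U^2` has a root in `q R` -/
theorem small_root {R : Type} [CommRing R] (I : Ideal R) [IsAdicComplete I R] (k : R[X]) {q : R} (hq : q ∈ I) :
    ∃ c : R, q + q * c + k.eval (q * c) * (q * c) ^ 2 = 0 := by
  classical
  obtain ⟨N, hN⟩ : ∃ N, N = k.natDegree + 2 := ⟨_, rfl⟩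
  obtain ⟨W, hW⟩ : ∃ W : R[X], W = ∑ j ∈ Finset.range (k.natDegree + 1),
      C (k.coeff j * (-1) ^ j * q ^ j) * X ^ (k.natDegree - j) := ⟨_, rfl⟩
  have hWd : W.natDegree ≤ k.natDegree := by
    rw [hW]
    refine natDegree_sum_le_of_forall_le _ _ fun j _ => ?_
    refine (natDegree_C_mul_X_pow_le _ _).trans (by omega)
  obtain ⟨M, hM⟩ : ∃ M : R[X], M = X ^ N + (C q * W - X ^ (N - 1)) := ⟨_, rfl⟩
  have hmon : M.Monic := by
    rw [hM]
    refine monic_X_pow_add ?_
    refine lt_of_le_of_lt (degree_sub_le _ _) (max_lt ?_ ?_)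
    · refine lt_of_le_of_lt degree_le_natDegree ?_
      have h1 : (C q * W).natDegree ≤ k.natDegree := (natDegree_C_mul_le _ _).trans hWd
      exact_mod_cast (show (C q * W).natDegree < N by omega)
    · refine lt_of_le_of_lt (degree_X_pow_le _) ?_
      exact_mod_cast (show N - 1 < N by omega)
  have h1 : M.eval 1 = q * W.eval 1 := by
    rw [hM]
    simp
  have h2 : M.derivative.eval 1 = 1 + q * W.derivative.eval 1 := by
    rw [hM, hN, show k.natDegree + 2 - 1 = k.natDegree + 1 by omega]
    simp only [derivative_add, derivative_sub, derivative_mul, derivative_C, zero_mul, zero_add, derivative_X_pow,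
      eval_add, eval_sub, eval_mul, eval_C, eval_pow, eval_X, one_pow, mul_one]
    push_cast
    ring
  have h3 : IsUnit (Ideal.Quotient.mk I (M.derivative.eval 1)) := by
    rw [h2, map_add, map_one, Ideal.Quotient.eq_zero_iff_mem.2 (I.mul_mem_right _ hq), add_zero]
    exact isUnit_one
  obtain ⟨Y, hY, hY1⟩ := HenselianRing.is_henselian (I := I) M hmon 1 (by rw [h1]; exact I.mul_mem_right _ hq) h3
  have hYu : IsUnit Y := by
    have h4 : Y - 1 ∈ Ideal.jacobson (⊥ : Ideal R) := HenselianRing.jac (I := I) hY1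
    have h5 := Ideal.mem_jacobson_bot.1 h4 1
    rwa [mul_one, sub_add_cancel] at h5
  obtain ⟨Z, hZ⟩ := hYu.exists_right_inv
  refine ⟨-Z, ?_⟩
  have h6 : Y ^ N * (q + q * -Z + k.eval (q * -Z) * (q * -Z) ^ 2) = q * M.eval Y := by
    rw [hM, eval_add, eval_sub, eval_mul, eval_C, eval_pow, eval_pow, eval_X, hW, eval_finset_sum, eval_eq_sum_range,
      Finset.sum_mul]
    have h7 : Y ^ N * ∑ j ∈ Finset.range (k.natDegree + 1), k.coeff j * (q * -Z) ^ j * (q * -Z) ^ 2 =
        q * (q * ∑ j ∈ Finset.range (k.natDegree + 1),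
          eval Y (C (k.coeff j * (-1) ^ j * q ^ j) * X ^ (k.natDegree - j))) := by
      rw [Finset.mul_sum, Finset.mul_sum, Finset.mul_sum]
      refine Finset.sum_congr rfl fun j hj => ?_
      have hj' : j ≤ k.natDegree := by
        have := Finset.mem_range.1 hj
        omega
      have h8 : N = (k.natDegree - j) + (j + 2) := by omega
      have h9 : Y ^ (j + 2) * Z ^ (j + 2) = 1 := by rw [← mul_pow, hZ, one_pow]
      rw [eval_mul, eval_C, eval_pow, eval_X]
      calc Y ^ N * (k.coeff j * (q * -Z) ^ j * (q * -Z) ^ 2) =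
          Y ^ (k.natDegree - j) * (k.coeff j * (-1) ^ j * q ^ j * q ^ 2) * (Y ^ (j + 2) * Z ^ (j + 2)) := by
            rw [h8, pow_add]
            have : (q * -Z) ^ j = (-1) ^ j * q ^ j * Z ^ j := by
              rw [← mul_pow, ← mul_pow]
              congr 1
              ring
            rw [this]
            ring
        _ = _ := by
            rw [h9]
            ring
    have h10 : Y ^ N * (q * -Z) = - q * Y ^ (N - 1) := by
      have h11 : N = (N - 1) + 1 := by omega
      calc Y ^ N * (q * -Z) = Y ^ ((N - 1) + 1) * (q * -Z) := by rw [← h11]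
        _ = - q * Y ^ (N - 1) * (Y * Z) := by rw [pow_succ]; ring
        _ = _ := by rw [hZ, mul_one]
    rw [mul_add, mul_add, h7, h10]
    ring
  have h12 : M.eval Y = 0 := hY
  rw [h12, mul_zero] at h6
  exact ((hYu.pow N).mul_right_eq_zero).1 h6

/-- Newton: if `G(a) = G'(a)^2 q` with `q` in `I` then `G` has a root in `a + G'(a) q R` -/
theorem newton {R : Type} [CommRing R] (I : Ideal R) [IsAdicComplete I R] (G : R[X]) (a : R) {q : R} (hq : q ∈ I)
    (h : G.eval a = (G.derivative.eval a) ^ 2 * q) : ∃ c : R, G.eval (a + G.derivative.eval a * (q * c)) = 0 := by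
  obtain ⟨d, hd⟩ : ∃ d, d = G.derivative.eval a := ⟨_, rfl⟩
  rw [← hd] at h ⊢
  obtain ⟨k, hk⟩ := Polynomial.binomExpansion (G.map (C : R →+* R[X])) (C a) (C d * X)
  obtain ⟨c, hc⟩ := small_root I k hq
  refine ⟨c, ?_⟩
  have h1 := congrArg (Polynomial.eval (q * c)) hk
  rw [eval_add, eval_add, eval_mul, eval_mul, derivative_map, eval_map, eval_map, eval_map, eval₂_hom, eval₂_hom, eval_C,
    eval_C, ← hd] at h1
  have h2 : Polynomial.eval (q * c) (eval₂ (C : R →+* R[X]) (C a + C d * X) G) = G.eval (a + d * (q * c)) := by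
    have h3 : Polynomial.eval (q * c) (eval₂ (C : R →+* R[X]) (C a + C d * X) G) =
        (Polynomial.evalRingHom (q * c)) (eval₂ (C : R →+* R[X]) (C a + C d * X) G) := rfl
    rw [h3, Polynomial.hom_eval₂]
    have h4 : (Polynomial.evalRingHom (q * c)).comp C = RingHom.id R := by
      ext x
      simp
    rw [h4, eval₂_id]
    simp
  rw [h2, h] at h1
  rw [h1]
  simp only [eval_mul, eval_C, eval_X, eval_pow]
  calc d ^ 2 * q + d * (d * (q * c)) + eval (q * c) k * (d * (q * c)) ^ 2 =
      d ^ 2 * (q + q * c + eval (q * c) k * (q * c) ^ 2) := by ring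
    _ = 0 := by rw [hc, mul_zero]

end Pool.Agent.H98.RH
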