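import Pool.Agent.H98.RH.Gd
import Pool.Agent.H98.RH.Fin
import Pool.Agent.H98.RH.New
import Mathlib.RingTheory.PowerSeries.Order
import Mathlib.RingTheory.PowerSeries.Inverse
import Mathlib.RingTheory.AdicCompletion.Completeness

/-!
# [H98 RH Spec] Specialisation: from `k[[t]]`, `k` a field, to `E[[t]]`, `E` a finite field
-/

set_option autoImplicit false

namespace Pool.Agent.H98.RH

open Polynomial

/-- the equation `order = n` by coefficients -/
def OrdN {R : Type} [CommRing R] (φ : PowerSeries R) (n : ℕ) : Prop :=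
  PowerSeries.coeff n φ ≠ 0 ∧ ∀ i < n, PowerSeries.coeff i φ = 0

theorem ordN_iff {R : Type} [CommRing R] {φ : PowerSeries R} {n : ℕ} : OrdN φ n ↔ φ.order = n :=
  PowerSeries.order_eq_nat.symm

theorem exists_ordN {R : Type} [CommRing R] {φ : PowerSeries R} (h : φ ≠ 0) : ∃ n, OrdN φ n :=
  ⟨φ.order.toNat, ordN_iff.2 (PowerSeries.coe_toNat_order h).symm⟩

theorem OrdN.ne {R : Type} [CommRing R] {φ : PowerSeries R} {n : ℕ} (h : OrdN φ n) : φ ≠ 0 := by
  intro h0
  apply h.1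
  rw [h0, map_zero]

/-- congruences -/
theorem e2_congr {σ : Type} {R : Type} [CommRing R] {d : R} {Z Z' : σ → R} {Θ Θ' : R} (hZ : ∀ i, d ∣ Z i - Z' i)
    (hΘ : d ∣ Θ - Θ') (h : Polynomial (MvPolynomial σ ℤ)) : d ∣ e2 Z Θ h - e2 Z' Θ' h := by
  rw [← Ideal.mem_span_singleton, ← Ideal.Quotient.eq]
  rw [e2_map, e2_map]
  have h1 : (fun i => Ideal.Quotient.mk (Ideal.span {d}) (Z i)) = fun i => Ideal.Quotient.mk (Ideal.span {d}) (Z' i) := by
    funext i
    rw [Ideal.Quotient.eq, Ideal.mem_span_singleton]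
    exact hZ i
  have h2 : Ideal.Quotient.mk (Ideal.span {d}) Θ = Ideal.Quotient.mk (Ideal.span {d}) Θ' := by
    rw [Ideal.Quotient.eq, Ideal.mem_span_singleton]
    exact hΘ
  rw [h1, h2]

theorem ordN_congr {R : Type} [CommRing R] {φ ψ : PowerSeries R} {M n : ℕ} (h : PowerSeries.X ^ M ∣ φ - ψ) (hn : n < M)
    (hφ : OrdN φ n) : OrdN ψ n := by
  have h1 : ∀ j < M, PowerSeries.coeff j φ = PowerSeries.coeff j ψ := by
    intro j hj
    have := PowerSeries.X_pow_dvd_iff.1 h j hj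
    rwa [map_sub, sub_eq_zero] at this
  exact ⟨by rw [← h1 n hn]; exact hφ.1, fun i hi => by rw [← h1 i (by omega)]; exact hφ.2 i hi⟩

theorem e2_eval {σ : Type} {R : Type} [CommRing R] (Z : σ → R) (Θ : R) (h : Polynomial (MvPolynomial σ ℤ)) :
    e2 Z Θ h = (h.map (MvPolynomial.eval₂Hom (Int.castRingHom R) Z)).eval Θ := by
  rw [Polynomial.eval_map]
  rfl

theorem e2_der {σ : Type} {R : Type} [CommRing R] (Z : σ → R) (Θ : R) (h : Polynomial (MvPolynomial σ ℤ)) :
    e2 Z Θ (derivative h) = (derivative (h.map (MvPolynomial.eval₂Hom (Int.castRingHom R) Z))).eval Θ := by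
  rw [Polynomial.derivative_map, Polynomial.eval_map]
  rfl

/-- truncation and transport of an order along a homomorphism of the coefficients -/
theorem ordN_trans {k E : Type} [Field k] [Field E] {C : Subring k} (r : C →+* E) {P : PowerSeries C}
    {φ : PowerSeries k} {M n : ℕ} (hP : ∀ j < M, ((PowerSeries.coeff j P : C) : k) = PowerSeries.coeff j φ) (hn : n < M)
    (hφ : OrdN φ n) (hinv : (PowerSeries.coeff n φ)⁻¹ ∈ C) : OrdN (PowerSeries.map r P) n := by
  constructor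
  · intro h
    rw [PowerSeries.coeff_map] at h
    have h1 : PowerSeries.coeff n P * ⟨_, hinv⟩ = 1 := by
      apply Subtype.ext
      rw [Subring.coe_mul, hP n hn]
      exact mul_inv_cancel₀ hφ.1
    have h2 := congrArg r h1
    rw [map_mul, h, zero_mul, map_one] at h2
    exact zero_ne_one h2
  · intro i hi
    rw [PowerSeries.coeff_map]
    have h1 : PowerSeries.coeff i P = 0 := by
      apply Subtype.ext
      rw [hP i (by omega), hφ.2 i hi]
      rfl
    rw [h1, map_zero]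

/-- SPEC -/
theorem spec {k : Type} [Field k] {σ : Type} [Finite σ] (Z : σ → PowerSeries k) (Θ : PowerSeries k)
    (g : Polynomial (MvPolynomial σ ℤ)) (hg : e2 Z Θ g = 0) (hg' : e2 Z Θ (Polynomial.derivative g) ≠ 0)
    (Q : Finset (Polynomial (MvPolynomial σ ℤ))) (hQ : ∀ q ∈ Q, e2 Z Θ q ≠ 0) :
    ∃ (E : Type) (_ : Field E) (_ : Finite E) (Z' : σ → PowerSeries E) (Θ' : PowerSeries E),
      e2 Z' Θ' g = 0 ∧ (∀ q ∈ Q, e2 Z' Θ' q ≠ 0 ∧ (e2 Z' Θ' q).order = (e2 Z Θ q).order) ∧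
      ∀ n : ℤ, (n : k) = 0 → (n : E) = 0 := by
  classical
  obtain ⟨μ, hμ⟩ := exists_ordN hg'
  have hN : ∃ N : Polynomial (MvPolynomial σ ℤ) → ℕ, ∀ q ∈ Q, OrdN (e2 Z Θ q) (N q) := by
    have h1 : ∀ q, ∃ n, q ∈ Q → OrdN (e2 Z Θ q) n := by
      intro q
      by_cases hq : q ∈ Q
      · obtain ⟨n, hn⟩ := exists_ordN (hQ q hq)
        exact ⟨n, fun _ => hn⟩
      · exact ⟨0, fun h => absurd h hq⟩
    choose N hN using h1
    exact ⟨N, fun q hq => hN q hq⟩
  obtain ⟨N, hN⟩ := hN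
  obtain ⟨M, hM⟩ : ∃ M, M = 2 * μ + 1 + Q.sup N := ⟨_, rfl⟩
  have hNM : ∀ q ∈ Q, N q < M - μ := by
    intro q hq
    have := Finset.le_sup (f := N) hq
    omega
  let _ : Fintype σ := Fintype.ofFinite σ
  obtain ⟨S, hS⟩ : ∃ S : Finset k, S = ((Finset.univ : Finset σ).biUnion fun i => (Finset.range M).image fun j =>
      PowerSeries.coeff j (Z i)) ∪ ((Finset.range M).image fun j => PowerSeries.coeff j Θ) ∪
      (Q.image fun q => (PowerSeries.coeff (N q) (e2 Z Θ q))⁻¹) ∪ {(PowerSeries.coeff μ (e2 Z Θ (derivative g)))⁻¹} :=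
    ⟨_, rfl⟩
  have hSC : ∀ x ∈ S, x ∈ Subring.closure (S : Set k) := fun x hx => Subring.subset_closure hx
  have hZC : ∀ i j, j < M → PowerSeries.coeff j (Z i) ∈ Subring.closure (S : Set k) := by
    intro i j hj
    apply hSC
    rw [hS]
    simp only [Finset.mem_union, Finset.mem_biUnion, Finset.mem_image, Finset.mem_range, Finset.mem_univ, true_and]
    exact Or.inl (Or.inl (Or.inl ⟨i, j, hj, rfl⟩))
  have hΘC : ∀ j, j < M → PowerSeries.coeff j Θ ∈ Subring.closure (S : Set k) := by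
    intro j hj
    apply hSC
    rw [hS]
    simp only [Finset.mem_union, Finset.mem_image, Finset.mem_range]
    exact Or.inl (Or.inl (Or.inr ⟨j, hj, rfl⟩))
  have hQC : ∀ q ∈ Q, (PowerSeries.coeff (N q) (e2 Z Θ q))⁻¹ ∈ Subring.closure (S : Set k) := by
    intro q hq
    apply hSC
    rw [hS]
    simp only [Finset.mem_union, Finset.mem_image]
    exact Or.inl (Or.inr ⟨q, hq, rfl⟩)
  have hdC : (PowerSeries.coeff μ (e2 Z Θ (derivative g)))⁻¹ ∈ Subring.closure (S : Set k) := by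
    apply hSC
    rw [hS]
    simp only [Finset.mem_union, Finset.mem_singleton]
    exact Or.inr trivial
  obtain ⟨E, hE1, hE2, ⟨r⟩⟩ := exists_fin S
  obtain ⟨Zt, hZt⟩ : ∃ Zt : σ → PowerSeries (Subring.closure (S : Set k)), ∀ i j, j < M →
      ((PowerSeries.coeff j (Zt i) : Subring.closure (S : Set k)) : k) = PowerSeries.coeff j (Z i) := by
    refine ⟨fun i => PowerSeries.mk fun j => if h : j < M then ⟨_, hZC i j h⟩ else 0, ?_⟩
    intro i j hj
    rw [PowerSeries.coeff_mk, dif_pos hj]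
  obtain ⟨Θt, hΘt⟩ : ∃ Θt : PowerSeries (Subring.closure (S : Set k)), ∀ j, j < M →
      ((PowerSeries.coeff j Θt : Subring.closure (S : Set k)) : k) = PowerSeries.coeff j Θ := by
    refine ⟨PowerSeries.mk fun j => if h : j < M then ⟨_, hΘC j h⟩ else 0, ?_⟩
    intro j hj
    rw [PowerSeries.coeff_mk, dif_pos hj]
  have hP : ∀ P : Polynomial (MvPolynomial σ ℤ), ∀ j < M,
      ((PowerSeries.coeff j (e2 Zt Θt P) : Subring.closure (S : Set k)) : k) = PowerSeries.coeff j (e2 Z Θ P) := by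
    intro P j hj
    have h1 := e2_map (PowerSeries.map (Subring.closure (S : Set k)).subtype) Zt Θt P
    have h2 : (PowerSeries.X : PowerSeries k) ^ M ∣ e2 (fun i => PowerSeries.map (Subring.closure (S : Set k)).subtype (Zt i))
        (PowerSeries.map (Subring.closure (S : Set k)).subtype Θt) P - e2 Z Θ P := by
      refine e2_congr (fun i => ?_) ?_ P
      · rw [PowerSeries.X_pow_dvd_iff]
        intro m hm
        rw [map_sub, PowerSeries.coeff_map, sub_eq_zero]
        exact hZt i m hm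
      · rw [PowerSeries.X_pow_dvd_iff]
        intro m hm
        rw [map_sub, PowerSeries.coeff_map, sub_eq_zero]
        exact hΘt m hm
    rw [← h1, PowerSeries.X_pow_dvd_iff] at h2
    have h3 := h2 j hj
    rw [map_sub, PowerSeries.coeff_map, sub_eq_zero] at h3
    exact h3
  obtain ⟨Z', hZ'⟩ : ∃ Z' : σ → PowerSeries E, Z' = fun i => PowerSeries.map r (Zt i) := ⟨_, rfl⟩
  obtain ⟨Θ₀, hΘ₀⟩ : ∃ Θ₀ : PowerSeries E, Θ₀ = PowerSeries.map r Θt := ⟨_, rfl⟩
  have he : ∀ P, e2 Z' Θ₀ P = PowerSeries.map r (e2 Zt Θt P) := by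
    intro P
    rw [e2_map, hZ', hΘ₀]
  have hd0 : OrdN (e2 Z' Θ₀ (derivative g)) μ := by
    rw [he]
    exact ordN_trans r (hP _) (by omega) hμ hdC
  have hq0 : ∀ q ∈ Q, OrdN (e2 Z' Θ₀ q) (N q) := by
    intro q hq
    rw [he]
    exact ordN_trans r (hP _) (by have := hNM q hq; omega) (hN q hq) (hQC q hq)
  have hg0 : (PowerSeries.X : PowerSeries E) ^ M ∣ e2 Z' Θ₀ g := by
    rw [PowerSeries.X_pow_dvd_iff]
    intro m hm
    rw [he, PowerSeries.coeff_map]
    have h1 : PowerSeries.coeff m (e2 Zt Θt g) = 0 := by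
      apply Subtype.ext
      rw [hP g m hm, hg]
      simp
    rw [h1, map_zero]
  obtain ⟨G, hG⟩ : ∃ G : Polynomial (PowerSeries E), G = g.map (MvPolynomial.eval₂Hom (Int.castRingHom (PowerSeries E)) Z') :=
    ⟨_, rfl⟩
  obtain ⟨u, hu⟩ : ∃ u : PowerSeries E, e2 Z' Θ₀ (derivative g) = PowerSeries.X ^ μ * u := by
    have h1 : (PowerSeries.X : PowerSeries E) ^ μ ∣ e2 Z' Θ₀ (derivative g) := PowerSeries.X_pow_dvd_iff.2 hd0.2
    exact h1
  have huu : IsUnit u := by
    rw [PowerSeries.isUnit_iff_constantCoeff]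
    have h1 := hd0.1
    rw [hu] at h1
    have h2 := PowerSeries.coeff_X_pow_mul u μ 0
    rw [zero_add] at h2
    rw [h2, PowerSeries.coeff_zero_eq_constantCoeff_apply] at h1
    exact isUnit_iff_ne_zero.2 h1
  obtain ⟨w, hw⟩ := hg0
  obtain ⟨ui, hui⟩ := huu.exists_right_inv
  have h1 : G.eval Θ₀ = (G.derivative.eval Θ₀) ^ 2 * (PowerSeries.X ^ (M - 2 * μ) * (w * ui ^ 2)) := by
    rw [hG, ← e2_eval, ← e2_der, hw, hu]
    have h2 : M = μ * 2 + (M - 2 * μ) := by omega
    calc (PowerSeries.X : PowerSeries E) ^ M * w = PowerSeries.X ^ (μ * 2 + (M - 2 * μ)) * w * (u * ui) ^ 2 := by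
          rw [← h2, hui, one_pow, mul_one]
      _ = _ := by
          rw [pow_add]
          ring
  have hqI : (PowerSeries.X : PowerSeries E) ^ (M - 2 * μ) * (w * ui ^ 2) ∈ Ideal.span {(PowerSeries.X : PowerSeries E)} := by
    rw [Ideal.mem_span_singleton]
    exact dvd_mul_of_dvd_left (dvd_pow_self _ (by omega)) _
  obtain ⟨c, hc⟩ := newton (Ideal.span {(PowerSeries.X : PowerSeries E)}) G Θ₀ hqI h1
  refine ⟨E, hE1, hE2, Z', Θ₀ + G.derivative.eval Θ₀ * (PowerSeries.X ^ (M - 2 * μ) * (w * ui ^ 2) * c), ?_, ?_, ?_⟩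
  · rw [e2_eval, ← hG]
    exact hc
  · intro q hq
    have h2 : (PowerSeries.X : PowerSeries E) ^ (M - μ) ∣ e2 Z' Θ₀ q -
        e2 Z' (Θ₀ + G.derivative.eval Θ₀ * (PowerSeries.X ^ (M - 2 * μ) * (w * ui ^ 2) * c)) q := by
      refine e2_congr (fun i => by rw [sub_self]; exact dvd_zero _) ?_ q
      refine ⟨-(u * (w * ui ^ 2) * c), ?_⟩
      rw [hG, ← e2_der, hu]
      have h3 : M - μ = μ + (M - 2 * μ) := by omega
      rw [h3, pow_add]
      ring
    have h3 := ordN_congr h2 (hNM q hq) (hq0 q hq)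
    refine ⟨h3.ne, ?_⟩
    rw [ordN_iff.1 h3, ordN_iff.1 (hN q hq)]
  · intro n hn
    have h2 : ((n : Subring.closure (S : Set k))) = 0 := by
      apply Subtype.ext
      rw [Subring.coe_intCast, hn]
      rfl
    have h3 := congrArg r h2
    rwa [map_intCast, map_zero] at h3

end Pool.Agent.H98.RH
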