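import Pool.Agent.H98.RH.Exp
import Pool.Agent.H98.RH.Spec
import Pool.Agent.H98.RH.Gd

/-!
# [H98 RH Hom] RING HOM from generators
-/

set_option autoImplicit false

namespace Pool.Agent.H98.RH

open Pool.Agent.H54.TT Polynomial

/-- the order of a power series as a Laurent series -/
theorem order_ofPS {E : Type} [Field E] {φ : PowerSeries E} {n : ℕ} (h : OrdN φ n) :
    (HahnSeries.ofPowerSeries ℤ E φ).order = n := by
  have h0 : HahnSeries.ofPowerSeries ℤ E φ ≠ 0 := by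
    intro h1
    have h2 := congrArg (fun x : HahnSeries ℤ E => x.coeff (n : ℤ)) h1
    simp only [HahnSeries.ofPowerSeries_apply_coeff, HahnSeries.coeff_zero] at h2
    exact h.1 h2
  apply le_antisymm
  · apply HahnSeries.order_le_of_coeff_ne_zero
    rw [HahnSeries.ofPowerSeries_apply_coeff]
    exact h.1
  · rw [HahnSeries.le_order_iff_forall h0]
    intro j hj
    have h3 := PowerSeries.coeff_coe φ j
    rw [h3]
    split_ifs with h4
    · rfl
    · apply h.2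
      omega

/-- extension of a homomorphism to the fractions -/
theorem frac_hom {P F L : Type} [CommRing P] [Field F] [Field L] (φ : P →+* F) (ψ : P →+* L)
    (hk : ∀ p, φ p = 0 → ψ p = 0) :
    ∃ (A : Subring F) (f : A →+* L), ∀ (c a : P) (x : F), ψ c ≠ 0 → x * φ c = φ a → ∃ hx : x ∈ A, f ⟨x, hx⟩ * ψ c = ψ a := by
  have hφ : ∀ c, ψ c ≠ 0 → φ c ≠ 0 := fun c h h0 => h (hk c h0)
  obtain ⟨A, hA⟩ : ∃ A : Subring F, ∀ x, x ∈ A ↔ ∃ c a : P, ψ c ≠ 0 ∧ x * φ c = φ a := by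
    refine ⟨{ carrier := {x | ∃ c a : P, ψ c ≠ 0 ∧ x * φ c = φ a}, mul_mem' := ?_, one_mem' := ?_, add_mem' := ?_,
              zero_mem' := ?_, neg_mem' := ?_ }, fun x => Iff.rfl⟩
    · rintro x y ⟨c, a, h1, h2⟩ ⟨c', a', h3, h4⟩
      refine ⟨c * c', a * a', ?_, ?_⟩
      · rw [map_mul]
        exact mul_ne_zero h1 h3
      · rw [map_mul, map_mul, ← h2, ← h4]
        ring
    · exact ⟨1, 1, by rw [map_one]; exact one_ne_zero, by rw [map_one, mul_one]⟩
    · rintro x y ⟨c, a, h1, h2⟩ ⟨c', a', h3, h4⟩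
      refine ⟨c * c', a * c' + a' * c, ?_, ?_⟩
      · rw [map_mul]
        exact mul_ne_zero h1 h3
      · rw [map_mul, map_add, map_mul, map_mul, ← h2, ← h4]
        ring
    · exact ⟨1, 0, by rw [map_one]; exact one_ne_zero, by rw [map_zero, zero_mul]⟩
    · rintro x ⟨c, a, h1, h2⟩
      exact ⟨c, -a, h1, by rw [map_neg, ← h2]; ring⟩
  have h1 : ∀ x : A, ∃ y : L, ∀ c a : P, ψ c ≠ 0 → (x : F) * φ c = φ a → y * ψ c = ψ a := by
    intro x
    obtain ⟨c, a, hc, hx⟩ := (hA x).1 x.2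
    refine ⟨ψ a / ψ c, ?_⟩
    intro c' a' hc' hx'
    have h2 : ψ (a * c' - a' * c) = 0 := by
      apply hk
      rw [map_sub, map_mul, map_mul, ← hx, ← hx']
      ring
    rw [map_sub, map_mul, map_mul, sub_eq_zero] at h2
    rw [div_mul_eq_mul_div, div_eq_iff hc]
    exact h2
  choose f hf using h1
  have huniq : ∀ x : A, ∀ y : L, ∀ c a : P, ψ c ≠ 0 → (x : F) * φ c = φ a → y * ψ c = ψ a → f x = y := by
    intro x y c a hc hx hy
    have h2 := hf x c a hc hx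
    rw [← hy] at h2
    exact mul_right_cancel₀ hc h2
  refine ⟨A, { toFun := f, map_one' := ?_, map_mul' := ?_, map_zero' := ?_, map_add' := ?_ }, ?_⟩
  · exact huniq 1 1 1 1 (by rw [map_one]; exact one_ne_zero) (by rw [map_one, mul_one]; rfl) (by rw [map_one, mul_one])
  · intro x y
    obtain ⟨c, a, hc, hx⟩ := (hA x).1 x.2
    obtain ⟨c', a', hc', hy⟩ := (hA y).1 y.2
    refine huniq (x * y) _ (c * c') (a * a') ?_ ?_ ?_
    · rw [map_mul]
      exact mul_ne_zero hc hc'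
    · rw [map_mul, map_mul, ← hx, ← hy, Subring.coe_mul]
      ring
    · rw [map_mul, map_mul, ← hf x c a hc hx, ← hf y c' a' hc' hy]
      ring
  · exact huniq 0 0 1 0 (by rw [map_one]; exact one_ne_zero) (by rw [map_zero]; simp) (by rw [map_zero, zero_mul])
  · intro x y
    obtain ⟨c, a, hc, hx⟩ := (hA x).1 x.2
    obtain ⟨c', a', hc', hy⟩ := (hA y).1 y.2
    refine huniq (x + y) _ (c * c') (a * c' + a' * c) ?_ ?_ ?_
    · rw [map_mul]
      exact mul_ne_zero hc hc'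
    · rw [map_mul, map_add, map_mul, map_mul, ← hx, ← hy, Subring.coe_add]
      ring
    · rw [map_mul, map_add, map_mul, map_mul, ← hf x c a hc hx, ← hf y c' a' hc' hy]
      ring
  · intro c a x hc hx
    exact ⟨(hA x).2 ⟨c, a, hc, hx⟩, hf ⟨x, _⟩ c a hc hx⟩

/-- RING HOM from generators -/
theorem hom_of_gd {k F : Type} [Field k] [Field F] [Algebra k F] {v : F → ℤ} (hv : IsDV v)
    (hk : ∀ c : k, c ≠ 0 → v (algebraMap k F c) = 0)
    (hres : ∀ x : F, Ge v 0 x → ∃ c : k, Ge v 1 (x - algebraMap k F c)) (S : Finset F)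
    {σ : Type} [Finite σ] {z : σ → F} {θ : F} {g : Polynomial (MvPolynomial σ ℤ)} {b : MvPolynomial σ ℤ}
    (H : GD v S σ z θ g b) :
    ∃ (E : Type) (_ : Field E) (_ : Finite E) (f : Subring.closure (S : Set F) →+* LaurentSeries E),
      Pres v HahnSeries.order S (Subring.closure (S : Set F)) f := by
  classical
  obtain ⟨T, hT⟩ := exists_exp hv hk hres
  obtain ⟨zO, hzO⟩ : ∃ zO : σ → Ov hv, zO = fun i => ⟨z i, H.zi i⟩ := ⟨_, rfl⟩
  obtain ⟨θO, hθO⟩ : ∃ θO : Ov hv, θO = ⟨θ, H.ti⟩ := ⟨_, rfl⟩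
  obtain ⟨Z, hZ⟩ : ∃ Z : σ → PowerSeries k, Z = fun i => T (zO i) := ⟨_, rfl⟩
  obtain ⟨Θ, hΘ⟩ : ∃ Θ : PowerSeries k, Θ = T θO := ⟨_, rfl⟩
  have hco : ∀ P, ((e2 zO θO P : Ov hv) : F) = e2 z θ P := by
    intro P
    have h1 := e2_map (Ov hv).subtype zO θO P
    rw [hzO, hθO] at h1 ⊢
    exact h1
  have hTP : ∀ P, e2 Z Θ P = T (e2 zO θO P) := by
    intro P
    rw [e2_map, hZ, hΘ]
  have hne : ∀ P, e2 z θ P ≠ 0 → e2 Z Θ P ≠ 0 ∧ (((e2 Z Θ P).order.toNat : ℕ) : ℤ) = v (e2 z θ P) := by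
    intro P hP
    rw [hTP, ← hco]
    exact hT _ (by rw [hco]; exact hP)
  have hz : ∀ P, e2 z θ P = 0 → e2 Z Θ P = 0 := by
    intro P hP
    rw [hTP]
    have h1 : e2 zO θO P = 0 := by
      apply Subtype.ext
      rw [hco, hP]
      rfl
    rw [h1, map_zero]
  have hfr : ∀ x : F, ∃ c a, x ∈ S → e2 z θ c ≠ 0 ∧ x * e2 z θ c = e2 z θ a := by
    intro x
    by_cases hx : x ∈ S
    · obtain ⟨c, a, h1, h2⟩ := H.frac x hx
      exact ⟨c, a, fun _ => ⟨h1, h2⟩⟩
    · exact ⟨0, 0, fun h => absurd h hx⟩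
  choose c a hca using hfr
  obtain ⟨E, hE1, hE2, Z', Θ', hg0, hQ', hchar⟩ := spec Z Θ g (hz g H.root) (hne _ H.der).1
    (insert (C b) (S.image c ∪ (S.filter (· ≠ 0)).image a)) (by
      intro q hq
      rw [Finset.mem_insert, Finset.mem_union, Finset.mem_image, Finset.mem_image] at hq
      rcases hq with rfl | ⟨x, hx, rfl⟩ | ⟨x, hx, rfl⟩
      · exact (hne _ H.lead).1
      · exact (hne _ (hca x hx).1).1
      · rw [Finset.mem_filter] at hx
        refine (hne _ ?_).1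
        rw [← (hca x hx.1).2]
        exact mul_ne_zero hx.2 (hca x hx.1).1)
  obtain ⟨ψ, hψ⟩ : ∃ ψ : Polynomial (MvPolynomial σ ℤ) →+* LaurentSeries E,
      ψ = (HahnSeries.ofPowerSeries ℤ E).comp (e2 Z' Θ') := ⟨_, rfl⟩
  have hψ' : ∀ P, ψ P = e2 (fun i => HahnSeries.ofPowerSeries ℤ E (Z' i)) (HahnSeries.ofPowerSeries ℤ E Θ') P := by
    intro P
    rw [hψ, RingHom.comp_apply, e2_map]
  have hψ0 : ∀ P, e2 Z' Θ' P ≠ 0 → ψ P ≠ 0 ∧ (ψ P).order = ((e2 Z' Θ' P).order.toNat : ℕ) := by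
    intro P hP
    obtain ⟨n, hn⟩ := exists_ordN hP
    have h1 := order_ofPS hn
    rw [hψ, RingHom.comp_apply]
    constructor
    · intro h2
      apply hP
      apply HahnSeries.ofPowerSeries_injective (Γ := ℤ) (R := E)
      rw [h2, map_zero]
    · rw [h1, ordN_iff.1 hn]
      rfl
  have hker : ∀ p, e2 z θ p = 0 → ψ p = 0 := by
    intro p hp
    obtain ⟨e, he⟩ := H.ker p hp (LaurentSeries E) (by
      intro n hn
      have h1 : (n : k) = 0 := by
        apply (algebraMap k F).injective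
        rw [map_intCast, map_zero]
        exact hn
      have h2 := congrArg (algebraMap E (LaurentSeries E)) (hchar n h1)
      rwa [map_intCast, map_zero] at h2)
      (fun i => HahnSeries.ofPowerSeries ℤ E (Z' i)) (HahnSeries.ofPowerSeries ℤ E Θ') (by
        rw [← hψ', hψ, RingHom.comp_apply, hg0, map_zero])
    rw [← hψ', ← hψ'] at he
    rcases mul_eq_zero.1 he with h1 | h1
    · exact absurd h1 (pow_ne_zero _ (hψ0 _ (hQ' _ (Finset.mem_insert_self _ _)).1).1)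
    · exact h1
  obtain ⟨A, f, hf⟩ := frac_hom (e2 z θ) ψ hker
  have hcQ : ∀ x ∈ S, ψ (c x) ≠ 0 ∧ (ψ (c x)).order = v (e2 z θ (c x)) := by
    intro x hx
    have h1 := hQ' (c x) (Finset.mem_insert_of_mem (Finset.mem_union_left _ (Finset.mem_image_of_mem _ hx)))
    have h2 := hψ0 _ h1.1
    refine ⟨h2.1, ?_⟩
    rw [h2.2, h1.2]
    exact (hne _ (hca x hx).1).2
  have haQ : ∀ x ∈ S, x ≠ 0 → ψ (a x) ≠ 0 ∧ (ψ (a x)).order = v (e2 z θ (a x)) := by
    intro x hx hx0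
    have h1 := hQ' (a x) (Finset.mem_insert_of_mem (Finset.mem_union_right _ (Finset.mem_image_of_mem _
      (Finset.mem_filter.2 ⟨hx, hx0⟩))))
    have h2 := hψ0 _ h1.1
    refine ⟨h2.1, ?_⟩
    rw [h2.2, h1.2]
    refine (hne _ ?_).2
    rw [← (hca x hx).2]
    exact mul_ne_zero hx0 (hca x hx).1
  have hSA : ∀ x ∈ S, ∃ hx : x ∈ A, f ⟨x, hx⟩ * ψ (c x) = ψ (a x) := by
    intro x hx
    exact hf (c x) (a x) x (hcQ x hx).1 (hca x hx).2
  have hle : Subring.closure (S : Set F) ≤ A := by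
    rw [Subring.closure_le]
    intro x hx
    exact (hSA x hx).1
  refine ⟨E, hE1, hE2, f.comp (Subring.inclusion hle), ⟨fun x hx => Subring.subset_closure hx, ?_, ?_⟩⟩
  · intro x hx hx0 h0
    obtain ⟨hxA, h1⟩ := hSA x hx
    have h2 : f ⟨x, hxA⟩ = 0 := h0
    rw [h2, zero_mul] at h1
    exact (haQ x hx hx0).1 h1.symm
  · intro x hx hx0
    obtain ⟨hxA, h1⟩ := hSA x hx
    show (f ⟨x, hxA⟩).order = v x
    have h2 : f ⟨x, hxA⟩ ≠ 0 := by
      intro h3
      rw [h3, zero_mul] at h1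
      exact (haQ x hx hx0).1 h1.symm
    have h3 := congrArg HahnSeries.order h1
    rw [(isDV_order E).mul _ _ h2 (hcQ x hx).1, (hcQ x hx).2, (haQ x hx hx0).2, ← (hca x hx).2,
      hv.mul _ _ hx0 (hca x hx).1] at h3
    omega

end Pool.Agent.H98.RH
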