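import Pool.Agent.H98.RH.Gd
import Pool.Agent.H98.RH.Defs

/-!
# [H98 RH Stm2] The parts of RING HOM
-/

set_option autoImplicit false

namespace Pool.Agent.H98.RH.Parts

open Pool.Agent.H54.TT Pool.Agent.H98.RH

/-- GEN -/
theorem exists_gen {F : Type} [Field F] {v : F → ℤ} (hv : IsDV v) (S : Finset F) :
    ∃ (σ : Type) (_ : Finite σ) (z : σ → F) (θ : F) (g : Polynomial (MvPolynomial σ ℤ)) (b : MvPolynomial σ ℤ),
      GD v S σ z θ g b := by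
  sorry

/-- EXP: Taylor series -/
theorem exists_exp {k F : Type} [Field k] [Field F] [Algebra k F] {v : F → ℤ} (hv : IsDV v)
    (hk : ∀ c : k, c ≠ 0 → v (algebraMap k F c) = 0)
    (hres : ∀ x : F, Ge v 0 x → ∃ c : k, Ge v 1 (x - algebraMap k F c)) :
    ∃ T : Ov hv →+* PowerSeries k, ∀ x : Ov hv, (x : F) ≠ 0 → T x ≠ 0 ∧ (((T x).order.toNat : ℕ) : ℤ) = v x := by
  sorry

/-- SPEC -/
theorem spec {k : Type} [Field k] {σ : Type} [Finite σ] (Z : σ → PowerSeries k) (Θ : PowerSeries k)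
    (g : Polynomial (MvPolynomial σ ℤ)) (hg : e2 Z Θ g = 0) (hg' : e2 Z Θ (Polynomial.derivative g) ≠ 0)
    (Q : Finset (Polynomial (MvPolynomial σ ℤ))) (hQ : ∀ q ∈ Q, e2 Z Θ q ≠ 0) :
    ∃ (E : Type) (_ : Field E) (_ : Finite E) (Z' : σ → PowerSeries E) (Θ' : PowerSeries E),
      e2 Z' Θ' g = 0 ∧ (∀ q ∈ Q, e2 Z' Θ' q ≠ 0 ∧ (e2 Z' Θ' q).order = (e2 Z Θ q).order) ∧
      ∀ n : ℤ, (n : k) = 0 → (n : E) = 0 := by
  sorry

end Pool.Agent.H98.RH.Parts
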